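import Pool.Agent.LibEM73.F2

/-! The final theorem. -/

open MeasureTheory ProbabilityTheory Set Filter Topology FG33 BGS
open scoped ContDiff ENNReal NNReal

namespace EM73

theorem final {Γ : Type} [Group Γ] [MulAction Γ Pl] {D : Set Pl} (hX : Surface Γ D)
    (hO : ∀ (γ : Γ) (z : Pl), 0 < (fderiv ℝ (fun w : Pl => γ • w) z).det)
    (L : ℝ → ℝ) (hL : Tendsto L atTop atTop)
    (hL' : Tendsto (fun T => L T / Real.log T) atTop (𝓝 0)) :
    (∀ m : Mt Γ D,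
      (∀ (f : ℝ → ℝ) (k : ℕ), FE35.IsTest f → (k = 1 ∨ PosFour f) →
        normMom (FE35.vGOE f) k ≤ lowMom m f L k) ∧
      Tendsto (fun T => FE35.tmean T fun τ =>
        ({k : ℕ | τ ≤ lam m k ∧ lam m k < τ + 1 / L T}.ncard - τ / (2 * Real.pi * L T)) ^ 2)
        atTop atTop) ∧
    ∀ᶠ m in residual (Mt Γ D),
      (∀ (a : ℝ → ℂ) (k : ℕ), IsAmp a → (k = 1 ∨ PosFour (tf a)) →
        lowMom m (tf a) L k = normMom (FE35.vGOE (tf a)) k) ∧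
      ∃ Lam : ℝ → ℝ, Tendsto Lam atTop atTop ∧ (∃ᶠ T in atTop, L T ≤ Lam T) ∧
        ∀ L' : ℝ → ℝ, Tendsto L' atTop atTop → (∀ᶠ T in atTop, L' T ≤ Lam T) →
          GOEMeans m L' ∧ GOEWindows m L' := by
  refine ⟨fun m => ⟨fun f k hf hk => low_ge hX hO m hL hL' hf hk,
    GD.num_var hX hO m (SR85Z.sumrule hX hO m) hL hL'⟩, ?_⟩
  filter_upwards [GN33.generic2 hX hL'] with m hm
  obtain ⟨Lam, h1, h2, h3, h4⟩ := hm
  have h5 : ∀ L' : ℝ → ℝ, Tendsto L' atTop atTop → (∀ᶠ T in atTop, L' T ≤ Lam T) →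
      GOEMeans m L' := fun L' h h' => goeMeans hX hO m h2 h3 h h'
  refine ⟨fun a k ha hk => le_antisymm (low_le hL h1 h4 h5 ha k)
    (low_ge hX hO m hL hL' (SC35.of_rd (SC35.rd_tf ha)) hk), Lam, h1, h4,
      fun L' h h' => ⟨h5 L' h h', ?_⟩⟩
  exact GD.one_metric hX hO m (SR85Z.sumrule hX hO m) h2 h3 h h'

end EM73
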