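import Mathlib

/-! Row EM1 (only Mathlib): the second moment of a trigonometric sum with positive weights. 40 min.
Plan. `trig_sq`: `Re z * Re w = (1/2) Re (z w) + (1/2) Re (z conj w)`, so
`X u ^ 2 = ∑_{i,j} ((1/2) Re (A_i A_j e^{-iu(ν_i + ν_j)}) + (1/2) Re (A_i conj A_j e^{-iu(ν_i - ν_j)}))`. For `ω ≠ 0`
`‖∫ u in T..T+H, e^{-iuω}‖ ≤ 2 / |ω|` (`integral_exp_mul_complex` or the antiderivative). The terms with
`ν_i = ν_j` in the second sum are constant. So the error is at most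
`(1/H) ∑_{i,j} ‖A_i‖ ‖A_j‖ ((1/2) (2/δ) + (1/2) (2/δ)) = 2 (∑ ‖A_i‖)^2 / (H δ)`.
`trig_low`: `Re (A_i conj A_j) = w_i w_j ‖α ν_i‖^2 ≥ 0` for `ν_i = ν_j`; keep only the terms `i = j`. -/

open MeasureTheory Set Filter Topology

namespace EM73

/-- The trigonometric sum. -/
noncomputable def tri {ι : Type} (s : Finset ι) (A : ι → ℂ) (ν : ι → ℝ) (u : ℝ) : ℝ :=
  ∑ i ∈ s, (A i * Complex.exp (-((u * ν i : ℝ) : ℂ) * Complex.I)).re

private noncomputable def E1_e (u ω : ℝ) : ℂ := Complex.exp (-((u * ω : ℝ) : ℂ) * Complex.I)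

private theorem E1_mul (u a b : ℝ) : E1_e u a * E1_e u b = E1_e u (a + b) := by
  unfold E1_e
  rw [← Complex.exp_add]
  congr 1
  push_cast
  ring

private theorem E1_conj (u b : ℝ) : (starRingEnd ℂ) (E1_e u b) = E1_e u (-b) := by
  unfold E1_e
  rw [← Complex.exp_conj]
  congr 1
  rw [map_mul, map_neg, Complex.conj_ofReal, Complex.conj_I]
  push_cast
  ring

private theorem E1_zero (u : ℝ) : E1_e u 0 = 1 := by
  unfold E1_e
  simp

private theorem E1_cont (ω : ℝ) : Continuous fun u : ℝ => E1_e u ω := by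
  unfold E1_e
  fun_prop

private theorem E1_norm (u ω : ℝ) : ‖E1_e u ω‖ = 1 := by
  unfold E1_e
  rw [show -((u * ω : ℝ) : ℂ) * Complex.I = ((-(u * ω) : ℝ) : ℂ) * Complex.I by push_cast; ring]
  exact Complex.norm_exp_ofReal_mul_I _

private theorem E1_int (ω δ : ℝ) (hδ : 0 < δ) (hω : δ ≤ |ω|) (a b : ℝ) :
    ‖∫ u in a..b, E1_e u ω‖ ≤ 2 / δ := by
  have hω0 : ω ≠ 0 := by
    intro h
    rw [h, abs_zero] at hω
    linarith
  have hc : (-(ω : ℂ) * Complex.I) ≠ 0 :=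
    mul_ne_zero (neg_ne_zero.2 (Complex.ofReal_ne_zero.2 hω0)) Complex.I_ne_zero
  have h1 : ∀ u : ℝ, E1_e u ω = Complex.exp ((-(ω : ℂ) * Complex.I) * u) := by
    intro u
    unfold E1_e
    congr 1
    push_cast
    ring
  have h2 : ∫ u in a..b, E1_e u ω = (E1_e b ω - E1_e a ω) / (-(ω : ℂ) * Complex.I) := by
    rw [h1 b, h1 a, ← integral_exp_mul_complex hc]
    exact intervalIntegral.integral_congr fun u _ => h1 u
  rw [h2, norm_div]
  have h3 : ‖-(ω : ℂ) * Complex.I‖ = |ω| := by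
    rw [norm_mul, norm_neg, Complex.norm_real, Complex.norm_I, mul_one, Real.norm_eq_abs]
  have h4 : ‖E1_e b ω - E1_e a ω‖ ≤ 2 := by
    refine (norm_sub_le _ _).trans ?_
    rw [E1_norm, E1_norm]
    norm_num
  rw [h3]
  calc ‖E1_e b ω - E1_e a ω‖ / |ω| ≤ 2 / |ω| :=
        div_le_div_of_nonneg_right h4 (abs_nonneg _)
    _ ≤ 2 / δ := div_le_div_of_nonneg_left (by norm_num) hδ hω

private theorem E1_cont' (B : ℂ) (ω : ℝ) : Continuous fun u : ℝ => (B * E1_e u ω).re :=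
  Complex.continuous_re.comp (continuous_const.mul (E1_cont ω))

private theorem E1_int' (B : ℂ) (ω δ : ℝ) (hδ : 0 < δ) (hω : δ ≤ |ω|) (a b : ℝ) :
    |∫ u in a..b, (B * E1_e u ω).re| ≤ ‖B‖ * (2 / δ) := by
  have h1 : ∫ u in a..b, (B * E1_e u ω).re = (∫ u in a..b, B * E1_e u ω).re := by
    have h2 := Complex.reCLM.intervalIntegral_comp_comm (μ := volume) (a := a) (b := b)
      (f := fun u => B * E1_e u ω) ((continuous_const.mul (E1_cont ω)).intervalIntegrable a b)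
    exact h2
  rw [h1, intervalIntegral.integral_const_mul]
  refine (Complex.abs_re_le_norm _).trans ?_
  rw [norm_mul]
  exact mul_le_mul_of_nonneg_left (E1_int ω δ hδ hω a b) (norm_nonneg _)

private theorem E1_prod (z w : ℂ) :
    z.re * w.re = 1 / 2 * (z * w).re + 1 / 2 * (z * (starRingEnd ℂ) w).re := by
  rw [Complex.mul_re, Complex.mul_re, Complex.conj_re, Complex.conj_im]
  ring

private theorem E1_pair (A B : ℂ) (x y u : ℝ) :
    (A * E1_e u x).re * (B * E1_e u y).re =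
      1 / 2 * ((A * B) * E1_e u (x + y)).re +
        1 / 2 * ((A * (starRingEnd ℂ) B) * E1_e u (x - y)).re := by
  rw [E1_prod, map_mul, E1_conj, sub_eq_add_neg, ← E1_mul u x y, ← E1_mul u x (-y)]
  congr 2
  · congr 1
    ring
  · congr 1
    ring

open Classical in
private theorem E1_one (A B : ℂ) (x y δ : ℝ) (hδ : 0 < δ) (hx : δ ≤ x) (hy : δ ≤ y)
    (hxy : x ≠ y → δ ≤ |x - y|) (T : ℝ) {H : ℝ} (hH : 0 < H) :
    |(1 / H * ∫ u in T..T + H, (A * E1_e u x).re * (B * E1_e u y).re) -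
      1 / 2 * (if x = y then (A * (starRingEnd ℂ) B).re else 0)| ≤
      2 * (‖A‖ * ‖B‖) / (H * δ) := by
  have h1 : ∫ u in T..T + H, (A * E1_e u x).re * (B * E1_e u y).re =
      1 / 2 * (∫ u in T..T + H, ((A * B) * E1_e u (x + y)).re) +
        1 / 2 * (∫ u in T..T + H, ((A * (starRingEnd ℂ) B) * E1_e u (x - y)).re) := by
    have i1 : IntervalIntegrable (fun u : ℝ => 1 / 2 * ((A * B) * E1_e u (x + y)).re)
        volume T (T + H) :=
      (continuous_const.mul (E1_cont' _ _)).intervalIntegrable _ _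
    have i2 : IntervalIntegrable
        (fun u : ℝ => 1 / 2 * ((A * (starRingEnd ℂ) B) * E1_e u (x - y)).re)
        volume T (T + H) :=
      (continuous_const.mul (E1_cont' _ _)).intervalIntegrable _ _
    rw [← intervalIntegral.integral_const_mul, ← intervalIntegral.integral_const_mul,
      ← intervalIntegral.integral_add i1 i2]
    exact intervalIntegral.integral_congr fun u _ => E1_pair A B x y u
  have h2 : |∫ u in T..T + H, ((A * B) * E1_e u (x + y)).re| ≤ ‖A‖ * ‖B‖ * (2 / δ) := by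
    have h3 := E1_int' (A * B) (x + y) δ hδ (by rw [abs_of_nonneg (by linarith)]; linarith)
      T (T + H)
    rwa [norm_mul] at h3
  have h3 : |(1 / H * (1 / 2 * ∫ u in T..T + H, ((A * (starRingEnd ℂ) B) * E1_e u (x - y)).re)) -
      1 / 2 * (if x = y then (A * (starRingEnd ℂ) B).re else 0)| ≤
      1 / H * (1 / 2 * (‖A‖ * ‖B‖ * (2 / δ))) := by
    by_cases hc : x = y
    · rw [if_pos hc, hc, sub_self]
      simp only [E1_zero, mul_one]
      rw [intervalIntegral.integral_const, smul_eq_mul]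
      have h4 : 1 / H * (1 / 2 * ((T + H - T) * (A * (starRingEnd ℂ) B).re)) -
          1 / 2 * (A * (starRingEnd ℂ) B).re = 0 := by
        field_simp
        ring
      rw [h4, abs_zero]
      positivity
    · rw [if_neg hc, mul_zero, sub_zero, abs_mul, abs_mul, abs_of_pos (by positivity : 0 < 1 / H),
        abs_of_pos (by norm_num : (0 : ℝ) < 1 / 2)]
      have h4 := E1_int' (A * (starRingEnd ℂ) B) (x - y) δ hδ (hxy hc) T (T + H)
      rw [norm_mul, RCLike.norm_conj] at h4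
      gcongr
  rw [h1]
  have h5 : 1 / H * (1 / 2 * (∫ u in T..T + H, ((A * B) * E1_e u (x + y)).re) +
        1 / 2 * (∫ u in T..T + H, ((A * (starRingEnd ℂ) B) * E1_e u (x - y)).re)) -
      1 / 2 * (if x = y then (A * (starRingEnd ℂ) B).re else 0) =
      1 / H * (1 / 2 * (∫ u in T..T + H, ((A * B) * E1_e u (x + y)).re)) +
      ((1 / H * (1 / 2 * ∫ u in T..T + H, ((A * (starRingEnd ℂ) B) * E1_e u (x - y)).re)) -
      1 / 2 * (if x = y then (A * (starRingEnd ℂ) B).re else 0)) := by ring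
  rw [h5]
  refine (abs_add_le _ _).trans ?_
  have h6 : |1 / H * (1 / 2 * (∫ u in T..T + H, ((A * B) * E1_e u (x + y)).re))| ≤
      1 / H * (1 / 2 * (‖A‖ * ‖B‖ * (2 / δ))) := by
    rw [abs_mul, abs_mul, abs_of_pos (by positivity : 0 < 1 / H),
      abs_of_pos (by norm_num : (0 : ℝ) < 1 / 2)]
    gcongr
  have h7 : 2 * (‖A‖ * ‖B‖) / (H * δ) = 1 / H * (1 / 2 * (‖A‖ * ‖B‖ * (2 / δ))) +
      1 / H * (1 / 2 * (‖A‖ * ‖B‖ * (2 / δ))) := by
    field_simp
    ring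
  rw [h7]
  exact add_le_add h6 h3

open Classical in
theorem trig_sq {ι : Type} (s : Finset ι) (A : ι → ℂ) (ν : ι → ℝ) {δ : ℝ} (hδ : 0 < δ)
    (h1 : ∀ i ∈ s, δ ≤ ν i) (h2 : ∀ i ∈ s, ∀ j ∈ s, ν i ≠ ν j → δ ≤ |ν i - ν j|) (T : ℝ) {H : ℝ}
    (hH : 0 < H) :
    |(1 / H * ∫ u in T..T + H, tri s A ν u ^ 2) -
      1 / 2 * ∑ i ∈ s, ∑ j ∈ s, (if ν i = ν j then (A i * (starRingEnd ℂ) (A j)).re else 0)| ≤
      2 * (∑ i ∈ s, ‖A i‖) ^ 2 / (H * δ) := by
  have e1 : ∀ u : ℝ, tri s A ν u ^ 2 =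
      ∑ i ∈ s, ∑ j ∈ s, (A i * E1_e u (ν i)).re * (A j * E1_e u (ν j)).re := by
    intro u
    have h3 : tri s A ν u = ∑ i ∈ s, (A i * E1_e u (ν i)).re := rfl
    rw [h3, sq, Finset.sum_mul_sum]
  have hint : ∀ i j, IntervalIntegrable
      (fun u : ℝ => (A i * E1_e u (ν i)).re * (A j * E1_e u (ν j)).re) volume T (T + H) :=
    fun i j => ((E1_cont' _ _).mul (E1_cont' _ _)).intervalIntegrable _ _
  have e2 : ∫ u in T..T + H, tri s A ν u ^ 2 =
      ∑ i ∈ s, ∑ j ∈ s, ∫ u in T..T + H, (A i * E1_e u (ν i)).re * (A j * E1_e u (ν j)).re := by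
    rw [intervalIntegral.integral_congr (fun u _ => e1 u)]
    rw [intervalIntegral.integral_finsetSum]
    · refine Finset.sum_congr rfl fun i _ => ?_
      exact intervalIntegral.integral_finsetSum fun j _ => hint i j
    · intro i _
      exact (continuous_finsetSum s fun j _ =>
        (E1_cont' (A i) (ν i)).mul (E1_cont' (A j) (ν j))).intervalIntegrable _ _
  rw [e2, Finset.mul_sum, Finset.mul_sum, ← Finset.sum_sub_distrib]
  have e3 : 2 * (∑ i ∈ s, ‖A i‖) ^ 2 / (H * δ) =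
      ∑ i ∈ s, ∑ j ∈ s, 2 * (‖A i‖ * ‖A j‖) / (H * δ) := by
    rw [sq, Finset.sum_mul_sum, Finset.mul_sum, Finset.sum_div]
    refine Finset.sum_congr rfl fun i _ => ?_
    rw [Finset.mul_sum, Finset.sum_div]
  rw [e3]
  refine (Finset.abs_sum_le_sum_abs _ _).trans (Finset.sum_le_sum fun i hi => ?_)
  rw [Finset.mul_sum, Finset.mul_sum, ← Finset.sum_sub_distrib]
  refine (Finset.abs_sum_le_sum_abs _ _).trans (Finset.sum_le_sum fun j hj => ?_)
  exact E1_one (A i) (A j) (ν i) (ν j) δ hδ (h1 i hi) (h1 j hj) (h2 i hi j hj) T hH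

theorem trig_low {ι : Type} (s : Finset ι) (w : ι → ℝ) (α : ℝ → ℂ) (ν : ι → ℝ)
    (hw : ∀ i ∈ s, 0 ≤ w i) {δ : ℝ} (hδ : 0 < δ)
    (h1 : ∀ i ∈ s, δ ≤ ν i) (h2 : ∀ i ∈ s, ∀ j ∈ s, ν i ≠ ν j → δ ≤ |ν i - ν j|) (T : ℝ) {H : ℝ}
    (hH : 0 < H) :
    1 / 2 * ∑ i ∈ s, ‖(w i : ℂ) * α (ν i)‖ ^ 2 -
      2 * (∑ i ∈ s, ‖(w i : ℂ) * α (ν i)‖) ^ 2 / (H * δ) ≤
      1 / H * ∫ u in T..T + H, tri s (fun i => (w i : ℂ) * α (ν i)) ν u ^ 2 := by
  classical
  have h3 := (abs_le.1 (trig_sq s (fun i => (w i : ℂ) * α (ν i)) ν hδ h1 h2 T hH)).1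
  have h4 : ∑ i ∈ s, ‖(w i : ℂ) * α (ν i)‖ ^ 2 ≤
      ∑ i ∈ s, ∑ j ∈ s, (if ν i = ν j then
        ((w i : ℂ) * α (ν i) * (starRingEnd ℂ) ((w j : ℂ) * α (ν j))).re else 0) := by
    refine Finset.sum_le_sum fun i hi => ?_
    have h5 : ∀ j ∈ s, 0 ≤ (if ν i = ν j then
        ((w i : ℂ) * α (ν i) * (starRingEnd ℂ) ((w j : ℂ) * α (ν j))).re else 0) := by
      intro j hj
      split_ifs with hc
      · have h6 : (w i : ℂ) * α (ν i) * (starRingEnd ℂ) ((w j : ℂ) * α (ν j)) =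
            ((w i * w j * Complex.normSq (α (ν i)) : ℝ) : ℂ) := by
          rw [← hc, map_mul, Complex.conj_ofReal]
          calc (w i : ℂ) * α (ν i) * ((w j : ℂ) * (starRingEnd ℂ) (α (ν i)))
              = (w i : ℂ) * (w j : ℂ) * (α (ν i) * (starRingEnd ℂ) (α (ν i))) := by ring
            _ = ((w i * w j * Complex.normSq (α (ν i)) : ℝ) : ℂ) := by
                rw [Complex.mul_conj]
                push_cast
                ring
        rw [h6, Complex.ofReal_re]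
        exact mul_nonneg (mul_nonneg (hw i hi) (hw j hj)) (Complex.normSq_nonneg _)
      · exact le_refl _
    refine le_trans ?_ (Finset.single_le_sum h5 hi)
    rw [if_pos rfl, Complex.mul_conj, Complex.ofReal_re, Complex.normSq_eq_norm_sq]
  have h5 : 1 / 2 * ∑ i ∈ s, ‖(w i : ℂ) * α (ν i)‖ ^ 2 ≤ 1 / 2 * ∑ i ∈ s, ∑ j ∈ s,
      (if ν i = ν j then
        ((w i : ℂ) * α (ν i) * (starRingEnd ℂ) ((w j : ℂ) * α (ν j))).re else 0) := by
    linarith
  linarith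

end EM73
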