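import Pool.Agent.LibEM73.N1
import Pool.Agent.LibGWa.U8

/-! The law of a continuous function in the triangular mean. -/

open MeasureTheory ProbabilityTheory Set Filter Topology FG33 Mes
open scoped ContDiff

namespace EM73

open GWin

/-- The triangular probability measure on `[0, T]`. -/
noncomputable def tri_mu (T : ℝ) : Measure ℝ :=
  (volume.restrict (Ioc 0 T)).withDensity fun u => ENNReal.ofReal (2 / T ^ 2 * (T - u))

theorem tri_mu_integral {T : ℝ} (hT : 0 < T) (g : ℝ → ℝ) :
    ∫ u, g u ∂(tri_mu T) = tm T g := by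
  unfold tri_mu tm
  rw [integral_withDensity_eq_integral_toReal_smul₀ (by fun_prop)
    (Eventually.of_forall fun u => ENNReal.ofReal_lt_top)]
  rw [intervalIntegral.integral_of_le hT.le, ← integral_const_mul]
  refine setIntegral_congr_fun measurableSet_Ioc fun u hu => ?_
  rw [ENNReal.toReal_ofReal, smul_eq_mul]
  · ring
  · have : 0 ≤ T - u := by linarith [hu.2]
    positivity

theorem tri_mu_integrable {T : ℝ} {g : ℝ → ℝ} (hg : Continuous g) :
    Integrable g (tri_mu T) := by
  unfold tri_mu
  rw [integrable_withDensity_iff_integrable_smul₀' (by fun_prop)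
    (Eventually.of_forall fun u => ENNReal.ofReal_lt_top)]
  have h2 : (fun u : ℝ => (ENNReal.ofReal (2 / T ^ 2 * (T - u))).toReal • g u) =
      fun u => max (2 / T ^ 2 * (T - u)) 0 * g u := by
    funext u
    rw [ENNReal.toReal_ofReal', smul_eq_mul]
  have h1 : ContinuousOn (fun u => (ENNReal.ofReal (2 / T ^ 2 * (T - u))).toReal • g u)
      (Icc 0 T) := by
    rw [h2]
    fun_prop
  exact (h1.integrableOn_Icc).mono_set Ioc_subset_Icc_self

theorem tri_mu_prob {T : ℝ} (hT : 0 < T) : IsProbabilityMeasure (tri_mu T) := by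
  have h1 : Integrable (fun _ : ℝ => (1 : ℝ)) (tri_mu T) := tri_mu_integrable continuous_const
  have h2 := tri_mu_integral hT fun _ => (1 : ℝ)
  rw [tm_const hT] at h2
  have hfin : IsFiniteMeasure (tri_mu T) := by
    rw [integrable_const_iff] at h1
    rcases h1 with h1 | h1
    · norm_num at h1
    · exact h1
  constructor
  rw [integral_const, smul_eq_mul, mul_one] at h2
  rw [← ENNReal.toReal_eq_one_iff]
  exact h2

/-- The law of a continuous function in the triangular mean. -/
theorem law_exists_tm {X : ℝ → ℝ} (hX : Continuous X) {T : ℝ} (hT : 0 < T) :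
    ∃ P : ProbabilityMeasure ℝ, (∀ r : ℕ, Integrable (fun x : ℝ => x ^ r) (P : Measure ℝ)) ∧
      (∀ r : ℕ, ∫ x, x ^ r ∂(P : Measure ℝ) = tm T fun u => X u ^ r) ∧
      ∀ F : BoundedContinuousFunction ℝ ℝ, ∫ x, F x ∂(P : Measure ℝ) = tm T fun u => F (X u) := by
  have hp := tri_mu_prob hT
  have hm := hX.measurable
  refine ⟨⟨(tri_mu T).map X, Measure.isProbabilityMeasure_map hm.aemeasurable⟩, fun r => ?_,
    fun r => ?_, fun F => ?_⟩
  · show Integrable (fun x : ℝ => x ^ r) ((tri_mu T).map X)
    rw [integrable_map_measure (by fun_prop) hm.aemeasurable]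
    exact tri_mu_integrable (hX.pow r)
  · show ∫ x, x ^ r ∂((tri_mu T).map X) = _
    rw [integral_map hm.aemeasurable (by fun_prop)]
    exact tri_mu_integral hT _
  · show ∫ x, F x ∂((tri_mu T).map X) = _
    rw [integral_map hm.aemeasurable F.continuous.aestronglyMeasurable]
    exact tri_mu_integral hT _

/-- From the moments to the law. -/
theorem law_of_mom_tm {X : ℝ → ℝ → ℝ} {v : ℝ} (hv : 0 ≤ v) (hX : ∀ᶠ T in atTop, Continuous (X T))
    (hm : ∀ r : ℕ, Tendsto (fun T => tm T fun u => X T u ^ r) atTop (𝓝 (gaussMom v r)))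
    (F : BoundedContinuousFunction ℝ ℝ) :
    Tendsto (fun T => tm T fun u => F (X T u)) atTop
      (𝓝 (∫ y, F y ∂(gaussianReal 0 v.toNNReal))) := by
  refine tendsto_of_seq_tendsto fun t ht => ?_
  obtain ⟨T₀, hT₀⟩ := (hX.and (eventually_gt_atTop 0)).exists_forall_of_atTop
  set s : ℕ → ℝ := fun n => max (t n) T₀ with hs
  have hs0 : ∀ n, 0 < s n := fun n => (hT₀ (s n) (le_max_right _ _)).2
  have hsc : ∀ n, Continuous (X (s n)) := fun n => (hT₀ (s n) (le_max_right _ _)).1
  have hst : s =ᶠ[atTop] t := by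
    filter_upwards [ht.eventually (eventually_ge_atTop T₀)] with n hn
    exact max_eq_left hn
  have hst' : Tendsto s atTop atTop := ht.congr' hst.symm
  choose P hP1 hP2 hP3 using fun n => law_exists_tm (hsc n) (hs0 n)
  have h1 := moment_method hv P hP1 (fun r => by
    simp_rw [hP2]
    exact (hm r).comp hst') F
  simp_rw [hP3] at h1
  refine h1.congr' ?_
  filter_upwards [hst] with n hn
  rw [hn]
  rfl

end EM73
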