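import Pool.Agent.LibEM73.N4
import Pool.Agent.LibGWa.U6

/-! Row N8: the moments of the statistic in the triangular mean, for separated lengths. 50 min.
Plan. As `st_moments` (LibGWa/U6), from `osc_moments_tm`. The integral over `[0, T]` is split at `√T` (`T ≥ 1`).
On `[√T, T]`: `|st - Osc| ≤ η(T) := C / L T + C exp (C L T) T^(-1/4) → 0` (`reduction`), `pow_diff` and the boundedness of
`tm T (Osc ^ (2 r))`. On `[0, √T]`, weight `≤ 2 / T`: `|Osc| ≤ exp (C' L T)` (`amp_total_le`), and `|st| ≤` the same kind of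
bound on `[1, √T]` by `reduction`; on `[0, 1]` `|st| ≤ B` uniformly (`st_bdd`: `|tf a y| ≤ B / (1 + |y|)^4` (`tf_decay`), `term_bound`,
`zsum`, LibGWa/U3). So this part is at most `2 T^(-1/2) exp (C'' L T) → 0`. -/

open MeasureTheory Set Filter Topology FG33 Mes
open scoped ContDiff

namespace EM73

open GWin

theorem N8_tm_add {f g : ℝ → ℝ} (hf : Continuous f) (hg : Continuous g) (T : ℝ) :
    tm T (fun u => f u + g u) = tm T f + tm T g := by
  unfold tm
  rw [← mul_add, ← intervalIntegral.integral_add]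
  · congr 1
    refine intervalIntegral.integral_congr fun u _ => ?_
    simp only
    ring
  · exact (Continuous.mul (by fun_prop) hf).intervalIntegrable _ _
  · exact (Continuous.mul (by fun_prop) hg).intervalIntegrable _ _

theorem N8_exp_small {L : ℝ → ℝ} (hL' : Tendsto (fun T => L T / Real.log T) atTop (𝓝 0)) {c e : ℝ}
    (hc : 0 < c) (he : 0 < e) : ∀ᶠ T : ℝ in atTop, Real.exp (c * L T) ≤ T ^ e := by
  have hsmall : ∀ᶠ T : ℝ in atTop, L T / Real.log T ≤ e / c :=
    (hL'.eventually (gt_mem_nhds (by positivity))).mono fun _ h => h.le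
  filter_upwards [hsmall, eventually_gt_atTop 1] with T h2 h3
  have hT0 : 0 < T := by linarith
  have hlog : 0 < Real.log T := Real.log_pos h3
  rw [div_le_iff₀ hlog] at h2
  rw [Real.rpow_def_of_pos hT0, Real.exp_le_exp]
  calc c * L T ≤ c * (e / c * Real.log T) := by gcongr
    _ = _ := by field_simp

theorem N8_osc_le {G : Geo} {a : ℝ → ℂ} (R L u : ℝ) : |Osc G a R L u| ≤
    ∑ p ∈ ball G (R * L), ∑ k ∈ Finset.range (KK G (R * L)), ‖amp G a L p k‖ := by
  unfold Osc
  refine (Finset.abs_sum_le_sum_abs _ _).trans (Finset.sum_le_sum fun p _ => ?_)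
  refine (Finset.abs_sum_le_sum_abs _ _).trans (Finset.sum_le_sum fun k _ => ?_)
  refine (Complex.abs_re_le_norm _).trans ?_
  rw [norm_mul]
  have h1 : ‖Complex.exp (-((u * (((k : ℝ) + 1) * G.len p) : ℝ) : ℂ) * Complex.I)‖ = 1 := by
    rw [← Complex.ofReal_neg, Complex.norm_exp_ofReal_mul_I]
  rw [h1, mul_one]

/-- The comparison of two triangular means. -/
theorem N8_cmp {f g k : ℝ → ℝ} (hf : Continuous f) (hg : Continuous g) (hk : Continuous k)
    (hk0 : ∀ u, 0 ≤ k u) {T D : ℝ} (hT : 1 ≤ T) (h1 : ∀ u, 0 ≤ u → u ≤ √T → |f u - g u| ≤ D)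
    (h2 : ∀ u, √T ≤ u → u ≤ T → |f u - g u| ≤ k u) :
    |tm T f - tm T g| ≤ 2 * T ^ (-(1 / 2) : ℝ) * D + tm T k := by
  have hT0 : 0 < T := by linarith
  have hs0 : 0 ≤ √T := Real.sqrt_nonneg T
  have hsT : √T ≤ T := by
    calc √T ≤ √(T ^ 2) := Real.sqrt_le_sqrt (by nlinarith)
      _ = T := Real.sqrt_sq hT0.le
  have hD : 0 ≤ D := (abs_nonneg _).trans (h1 0 le_rfl hs0)
  have hφ : Continuous fun u => (T - u) * (f u - g u) := by fun_prop
  have e1 : tm T f - tm T g = 2 / T ^ 2 * ∫ u in (0 : ℝ)..T, (T - u) * (f u - g u) := by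
    unfold tm
    rw [← mul_sub, ← intervalIntegral.integral_sub]
    · congr 1
      refine intervalIntegral.integral_congr fun u _ => ?_
      ring
    · exact (Continuous.mul (by fun_prop) hf).intervalIntegrable _ _
    · exact (Continuous.mul (by fun_prop) hg).intervalIntegrable _ _
  have e2 : ∫ u in (0 : ℝ)..T, (T - u) * (f u - g u) =
      (∫ u in (0 : ℝ)..√T, (T - u) * (f u - g u)) + ∫ u in √T..T, (T - u) * (f u - g u) :=
    (intervalIntegral.integral_add_adjacent_intervals (hφ.intervalIntegrable _ _)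
      (hφ.intervalIntegrable _ _)).symm
  have b1 : |∫ u in (0 : ℝ)..√T, (T - u) * (f u - g u)| ≤ T * D * √T := by
    rw [← Real.norm_eq_abs]
    refine (intervalIntegral.norm_integral_le_of_norm_le_const (C := T * D) fun u hu => ?_).trans
      (le_of_eq ?_)
    · rw [uIoc_of_le hs0] at hu
      rw [Real.norm_eq_abs, abs_mul, abs_of_nonneg (by linarith [hu.2])]
      have h3 := h1 u hu.1.le hu.2
      have h4 : T - u ≤ T := by linarith [hu.1]
      gcongr
    · rw [sub_zero, abs_of_nonneg hs0]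
  have hψ : Continuous fun u => (T - u) * k u := by fun_prop
  have b2 : |∫ u in √T..T, (T - u) * (f u - g u)| ≤ ∫ u in (0 : ℝ)..T, (T - u) * k u := by
    rw [← Real.norm_eq_abs]
    refine (intervalIntegral.norm_integral_le_of_norm_le hsT (g := fun u => (T - u) * k u) ?_
      (hψ.intervalIntegrable _ _)).trans ?_
    · refine Eventually.of_forall fun u hu => ?_
      rw [Real.norm_eq_abs, abs_mul, abs_of_nonneg (by linarith [hu.2])]
      have h3 := h2 u hu.1.le hu.2
      have h4 : 0 ≤ T - u := by linarith [hu.2]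
      gcongr
    · refine intervalIntegral.integral_mono_interval hs0 hsT le_rfl ?_ (hψ.intervalIntegrable _ _)
      filter_upwards [ae_restrict_mem measurableSet_Ioc] with u hu
      exact mul_nonneg (by linarith [hu.2]) (hk0 u)
  rw [e1, e2, abs_mul, abs_of_pos (by positivity : 0 < 2 / T ^ 2)]
  have e3 : 2 * T ^ (-(1 / 2) : ℝ) * D = 2 / T ^ 2 * (T * D * √T) := by
    have h5 : T ^ (-(1 / 2) : ℝ) = 1 / √T := by
      rw [Real.rpow_neg hT0.le, ← Real.sqrt_eq_rpow, one_div]
    rw [h5]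
    have h6 : 0 < √T := Real.sqrt_pos.2 hT0
    have h7 : √T * √T = T := Real.mul_self_sqrt hT0.le
    field_simp
    nlinarith
  have e4 : tm T k = 2 / T ^ 2 * ∫ u in (0 : ℝ)..T, (T - u) * k u := rfl
  rw [e3, e4, ← mul_add]
  refine mul_le_mul_of_nonneg_left ?_ (by positivity)
  exact (abs_add_le _ _).trans (add_le_add b1 b2)

theorem st_bdd {a : ℝ → ℂ} (ha : IsAmp a) {lev : ℕ → ℝ} (hl : Lev lev) :
    ∃ B : ℝ, ∀ L u : ℝ, 1 ≤ L → 0 ≤ u → u ≤ 1 → |st lev a L u| ≤ B := by
  obtain ⟨B, hB, hb⟩ := tf_decay ha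
  refine ⟨B * 2 ^ 4 * (∑' n, 1 / (lev n + 1) ^ 4) + |∫ y, tf a y|, fun L u hL hu0 hu1 => ?_⟩
  have hL0 : 0 < L := by linarith
  have key : ∀ n, ‖tf a (L * (lev n - u))‖ ≤ B * 2 ^ 4 * (1 / (lev n + 1) ^ 4) := by
    intro n
    have h0 := hl.nn n
    refine (term_bound hB hb hl hL0 u n).trans ?_
    rw [min_eq_left hL, div_one, abs_of_nonneg hu0]
    gcongr
    linarith
  have hs := (zsum hl).mul_left (B * 2 ^ 4)
  have h1 := tsum_of_norm_bounded hs.hasSum key
  rw [Real.norm_eq_abs, tsum_mul_left] at h1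
  unfold st
  refine (abs_sub _ _).trans (add_le_add h1 ?_)
  rw [abs_mul]
  have h2 : |u / (2 * Real.pi * L)| ≤ 1 := by
    have hpi := Real.pi_gt_three
    rw [abs_of_nonneg (by positivity), div_le_one (by positivity)]
    nlinarith
  calc |u / (2 * Real.pi * L)| * |∫ y, tf a y| ≤ 1 * |∫ y, tf a y| := by gcongr
    _ = _ := one_mul _

theorem st_moments_tm {G : Geo} {κ : ℝ} (h : Ok G κ) (hSR : SumRule G) {lev : ℕ → ℝ}
    (hl : Lev lev) (hT : Trace G lev) {L : ℝ → ℝ}
    (hL : Tendsto L atTop atTop) (hL' : Tendsto (fun T => L T / Real.log T) atTop (𝓝 0))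
    (hS : Sep G L) {a : ℝ → ℂ} (ha : IsAmp a) (r : ℕ) :
    Tendsto (fun T => tm T fun u => st lev a (L T) u ^ r) atTop (𝓝 (gaussMom (vg a) r)) := by
  obtain ⟨R, hR0, hR⟩ : ∃ R : ℝ, 0 ≤ R ∧ ∀ s, R ≤ |s| → a s = 0 := by
    obtain ⟨R, hR0, hR⟩ := ha.supp.isCompact.isBounded.exists_pos_norm_lt
    refine ⟨R, hR0.le, fun s hs => ?_⟩
    by_contra h0
    have := hR s (subset_tsupport a h0)
    rw [Real.norm_eq_abs] at this
    linarith
  obtain ⟨A, hA⟩ : ∃ A, ∀ s, ‖a s‖ ≤ A := by
    obtain ⟨x, hx⟩ := ha.smooth.continuous.norm.exists_forall_ge_of_hasCompactSupport ha.supp.norm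
    exact ⟨_, hx⟩
  obtain ⟨C, hC, hred⟩ := reduction h hl hT ha hR0 (fun s hs => hR s hs.le)
  obtain ⟨C2, hC2, h2⟩ := amp_total_le h hA hR0
  obtain ⟨B, hB⟩ := st_bdd ha hl
  have hO := osc_moments_tm h hSR hL hL' hS ha hR0 hR
  set K : ℝ := |B| + 1 + 2 * C with hK
  have hK1 : 1 ≤ K := by
    have := abs_nonneg B
    linarith
  have hC2' : (0 : ℝ) ≤ C2 := by linarith
  set C3 : ℝ := C2 + C with hC3
  have hC3' : 0 < C3 := by linarith
  -- the error
  have hε1 : Tendsto (fun T : ℝ => C / L T) atTop (𝓝 0) := tendsto_const_nhds.div_atTop hL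
  have hε2 : Tendsto (fun T : ℝ => C * Real.exp (C * L T) * T ^ (-(1 / 4) : ℝ)) atTop (𝓝 0) := by
    have h1 : Tendsto (fun T : ℝ => C * T ^ (-(1 / 8) : ℝ)) atTop (𝓝 0) := by
      have := (tendsto_rpow_neg_atTop (show (0 : ℝ) < 1 / 8 by norm_num)).const_mul C
      simpa using this
    refine squeeze_zero' ?_ ?_ h1
    · filter_upwards [eventually_gt_atTop 0] with T hT
      positivity
    · filter_upwards [N8_exp_small hL' hC (show (0 : ℝ) < 1 / 8 by norm_num),
        eventually_gt_atTop 1] with T h4 h3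
      have hT0 : 0 < T := by linarith
      calc C * Real.exp (C * L T) * T ^ (-(1 / 4) : ℝ) ≤ C * T ^ (1 / 8 : ℝ) * T ^ (-(1 / 4) : ℝ) := by
            gcongr
        _ = C * T ^ (-(1 / 8) : ℝ) := by
            rw [mul_assoc, ← Real.rpow_add hT0]
            norm_num
  have hε := hε1.add hε2
  rw [add_zero] at hε
  have hD : Tendsto (fun T : ℝ => 2 * T ^ (-(1 / 2) : ℝ) * ((K ^ r + 1) *
      Real.exp ((r + 1) * C3 * L T))) atTop (𝓝 0) := by
    have h1 : Tendsto (fun T : ℝ => 2 * (K ^ r + 1) * T ^ (-(1 / 4) : ℝ)) atTop (𝓝 0) := by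
      have := (tendsto_rpow_neg_atTop (show (0 : ℝ) < 1 / 4 by norm_num)).const_mul
        (2 * (K ^ r + 1))
      simpa using this
    refine squeeze_zero' ?_ ?_ h1
    · filter_upwards [eventually_gt_atTop 0] with T hT
      positivity
    · filter_upwards [N8_exp_small hL' (show (0 : ℝ) < (r + 1) * C3 by positivity)
        (show (0 : ℝ) < 1 / 4 by norm_num), eventually_gt_atTop 1] with T h4 h3
      have hT0 : 0 < T := by linarith
      calc 2 * T ^ (-(1 / 2) : ℝ) * ((K ^ r + 1) * Real.exp ((r + 1) * C3 * L T))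
          ≤ 2 * T ^ (-(1 / 2) : ℝ) * ((K ^ r + 1) * T ^ (1 / 4 : ℝ)) := by gcongr
        _ = 2 * (K ^ r + 1) * (T ^ (-(1 / 2) : ℝ) * T ^ (1 / 4 : ℝ)) := by ring
        _ = 2 * (K ^ r + 1) * T ^ (-(1 / 4) : ℝ) := by
            rw [← Real.rpow_add hT0]
            norm_num
  have hbound : Tendsto (fun T => 2 * T ^ (-(1 / 2) : ℝ) * ((K ^ r + 1) *
      Real.exp ((r + 1) * C3 * L T)) + (C / L T + C * Real.exp (C * L T) * T ^ (-(1 / 4) : ℝ)) *
      (r * 2 ^ (2 * r)) * (1 + tm T fun u => Osc G a R (L T) u ^ (2 * r))) atTop (𝓝 0) := by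
    have := hD.add ((hε.mul_const ((r : ℝ) * 2 ^ (2 * r))).mul ((hO (2 * r)).const_add 1))
    simpa using this
  have h0 : Tendsto (fun T => (tm T fun u => st lev a (L T) u ^ r) -
      tm T fun u => Osc G a R (L T) u ^ r) atTop (𝓝 0) := by
    refine squeeze_zero_norm' ?_ hbound
    filter_upwards [hε.eventually (gt_mem_nhds one_pos), hL.eventually (eventually_ge_atTop 1),
      eventually_ge_atTop 1] with T h1 hL1 hT1
    have hT0 : 0 < T := by linarith
    have hL0 : 0 < L T := by linarith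
    have hs1 : 1 ≤ √T := by rw [Real.one_le_sqrt]; exact hT1
    set ε := C / L T + C * Real.exp (C * L T) * T ^ (-(1 / 4) : ℝ) with hεd
    have hε0 : 0 ≤ ε := by positivity
    have hc1 : Continuous fun u => st lev a (L T) u ^ r := (st_cont ha hl hL0).pow r
    have hc2 : Continuous fun u => Osc G a R (L T) u ^ r := (Osc_cont G a R (L T)).pow r
    have hc3 : Continuous fun u => Osc G a R (L T) u ^ (2 * r) :=
      (Osc_cont G a R (L T)).pow (2 * r)
    have hk : Continuous fun u => ε * (r * 2 ^ (2 * r)) * (1 + Osc G a R (L T) u ^ (2 * r)) := by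
      fun_prop
    have hk0 : ∀ u, 0 ≤ ε * (r * 2 ^ (2 * r)) * (1 + Osc G a R (L T) u ^ (2 * r)) := by
      intro u
      have h9 : 0 ≤ Osc G a R (L T) u ^ (2 * r) := by rw [pow_mul]; positivity
      positivity
    -- the crude bounds
    set E : ℝ := Real.exp (C3 * L T) with hE
    have hE1 : 1 ≤ E := Real.one_le_exp (by positivity)
    have hosc : ∀ u, |Osc G a R (L T) u| ≤ E := by
      intro u
      refine (N8_osc_le R (L T) u).trans ((h2 (L T) _ hL1).trans ?_)
      rw [hE, Real.exp_le_exp]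
      nlinarith
    have hst : ∀ u, 0 ≤ u → |st lev a (L T) u| ≤ K * E := by
      intro u hu
      rcases le_total u 1 with hu1 | hu1
      · refine (hB (L T) u hL1 hu hu1).trans ?_
        have h3 := le_abs_self B
        have h4 := abs_nonneg B
        nlinarith
      · have h3 := hred (L T) u hL1 hu1
        have h4 := abs_sub_abs_le_abs_sub (st lev a (L T) u) (Osc G a R (L T) u)
        have h5 := hosc u
        have h6 : C / L T ≤ C * E := by
          rw [div_le_iff₀ hL0]
          have : C ≤ C * E := by nlinarith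
          nlinarith [mul_nonneg hC.le (sub_nonneg.2 hL1)]
        have h7 : u ^ (-(1 / 2) : ℝ) ≤ 1 := Real.rpow_le_one_of_one_le_of_nonpos hu1 (by norm_num)
        have h8 : Real.exp (C * L T) ≤ E := by
          rw [hE, Real.exp_le_exp]
          nlinarith
        have h9 : C * Real.exp (C * L T) * u ^ (-(1 / 2) : ℝ) ≤ C * E := by
          calc C * Real.exp (C * L T) * u ^ (-(1 / 2) : ℝ) ≤ C * E * 1 := by gcongr
            _ = _ := mul_one _
        have h10 : 0 ≤ |B| * E := by positivity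
        have h11 : K * E = |B| * E + E + 2 * (C * E) := by rw [hK]; ring
        rw [h11]
        linarith
    have hEr : E ^ r ≤ Real.exp ((r + 1) * C3 * L T) := by
      rw [hE, ← Real.exp_nat_mul, Real.exp_le_exp]
      have : 0 ≤ C3 * L T := by positivity
      nlinarith
    have hcmp := N8_cmp hc1 hc2 hk hk0 (D := (K ^ r + 1) * Real.exp ((r + 1) * C3 * L T)) hT1 ?_ ?_
    · rw [Real.norm_eq_abs]
      refine hcmp.trans (le_of_eq ?_)
      congr 1
      rw [tm_mul]
      congr 1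
      rw [N8_tm_add continuous_const hc3, tm_const hT0]
    · intro u hu0 hu1
      have h3 : |st lev a (L T) u ^ r| ≤ K ^ r * E ^ r := by
        rw [abs_pow, ← mul_pow]
        exact pow_le_pow_left₀ (abs_nonneg _) (hst u hu0) r
      have h4 : |Osc G a R (L T) u ^ r| ≤ E ^ r := by
        rw [abs_pow]
        exact pow_le_pow_left₀ (abs_nonneg _) (hosc u) r
      have hKr : 0 ≤ K ^ r := by positivity
      calc |st lev a (L T) u ^ r - Osc G a R (L T) u ^ r| ≤ K ^ r * E ^ r + E ^ r :=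
            (abs_sub _ _).trans (add_le_add h3 h4)
        _ = (K ^ r + 1) * E ^ r := by ring
        _ ≤ _ := by gcongr
    · intro u hu0 hu1
      refine pow_diff ?_ h1.le r
      refine (hred (L T) u hL1 (hs1.trans hu0)).trans ?_
      have h5 : u ^ (-(1 / 2) : ℝ) ≤ T ^ (-(1 / 4) : ℝ) := by
        have h6 : T ^ (-(1 / 4) : ℝ) = (√T) ^ (-(1 / 2) : ℝ) := by
          rw [Real.sqrt_eq_rpow, ← Real.rpow_mul hT0.le]
          norm_num
        rw [h6]
        exact Real.rpow_le_rpow_of_nonpos (by linarith) hu0 (by norm_num)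
      rw [hεd]
      gcongr
  have h1 := h0.add (hO r)
  simpa using h1

end EM73
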