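import Pool.Agent.LibEM73.Fdefs
import Pool.Agent.LibEM73.L1
import Pool.Agent.LibEM73.N8
import Pool.Agent.LibGN33.G8
import Pool.Agent.LibSR85Z.Z1
import Pool.Agent.LibSC35.Met

/-! The final assembly. -/

open MeasureTheory ProbabilityTheory Set Filter Topology FG33 BGS GWin Mes
open scoped ContDiff ENNReal NNReal

namespace EM73

theorem normMom_ofReal {v : ℝ} (hv : 0 ≤ v) (k : ℕ) :
    normMom (ENNReal.ofReal v) k = ENNReal.ofReal (gaussMom v (2 * k)) := by
  unfold normMom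
  rw [SC35.gm_even, ENNReal.ofReal_mul (by positivity), ENNReal.ofReal_natCast,
    ENNReal.ofReal_pow hv]

theorem vGOE_tf {a : ℝ → ℂ} (ha : IsAmp a) : FE35.vGOE (tf a) = ENNReal.ofReal (vg a) := by
  have h1 : FE35.vGOE (tf a) = (varGOE a : ℝ≥0∞) := SC35.vF_tf ha
  rw [h1, varGOE_eq ha]
  rfl

variable {Γ : Type} [Group Γ] [MulAction Γ Pl] {D : Set Pl}

/-- The assumptions of the abstract theorem for the metric `m`. -/
theorem data_of (hX : Surface Γ D) (hO : BR.Ori Γ) (m : Mt Γ D) : ∃ (G : Geo) (κ : ℝ),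
    G = GH.geo (BGM.tl m.1.1) (GD.trg m.1.1) (Γ := Γ) ∧ Ok G κ ∧ SumRule G ∧ Lev (lam m) ∧
      Trace G (lam m) := by
  have hm : BR.HM Γ m.1.1 := BR.hm_of_Mt m
  obtain ⟨a, b, ha, hab, hk⟩ := BR.curv_bounds hX hm
  have hG := GD.grpData hX hO hm ha fun z => (hk z).2
  exact ⟨_, _, rfl, GH.ok_geo hG, SR85Z.sumrule hX hO m, GD.lev hX m,
    GD.trace_geo hX hO m ha fun z => (hk z).2⟩

/-- The law and all moments in the mean with triangular weight. -/
theorem goeMeans (hX : Surface Γ D) (hO : BR.Ori Γ) (m : Mt Γ D) {Lam : ℝ → ℝ}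
    (hLam : Tendsto (fun T => Lam T / Real.log T) atTop (𝓝 0)) (hS : BGM.SepG Γ m.1.1 Lam)
    {L : ℝ → ℝ} (hL : Tendsto L atTop atTop) (hL' : ∀ᶠ T in atTop, L T ≤ Lam T) :
    GOEMeans m L := by
  obtain ⟨G, κ, hG, hok, hSR, hl, hT⟩ := data_of hX hO m
  have h0 : ∀ᶠ T in atTop, 0 ≤ L T := hL.eventually (eventually_ge_atTop 0)
  have h1 : Tendsto (fun T => L T / Real.log T) atTop (𝓝 0) := by
    refine squeeze_zero' ?_ ?_ hLam
    · filter_upwards [h0, eventually_gt_atTop 1] with T hT hT1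
      exact div_nonneg hT (Real.log_pos hT1).le
    · filter_upwards [hL', eventually_gt_atTop 1] with T hT hT1
      exact div_le_div_of_nonneg_right hT (Real.log_pos hT1).le
  have hsep : Sep G Lam := hG ▸ GH.sep_of hS
  have hm : ∀ {a : ℝ → ℂ}, IsAmp a → ∀ r : ℕ, Tendsto (fun T => tm T fun u =>
      st (lam m) a (L T) u ^ r) atTop (𝓝 (gaussMom (vg a) r)) := fun ha r =>
    st_moments_tm hok hSR hl hT hL h1 (hsep.mono hL' h0) ha r
  intro a ha
  have hc : ∀ᶠ T in atTop, Continuous (st (lam m) a (L T)) := by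
    filter_upwards [hL.eventually (eventually_gt_atTop 0)] with T hT
    exact st_cont ha hl hT
  rw [varGOE_eq ha]
  constructor
  · rintro F hF ⟨B, hB⟩
    exact law_of_mom_tm (vg_nonneg a) hc (hm ha)
      (BoundedContinuousFunction.ofNormedAddCommGroup F hF B hB)
  · intro r
    rw [gauss_moments, Real.coe_toNNReal _ (vg_nonneg a)]
    exact hm ha r

theorem tendsto_min_atTop {L M : ℝ → ℝ} (hL : Tendsto L atTop atTop) (hM : Tendsto M atTop atTop) :
    Tendsto (fun T => min (L T) (M T)) atTop atTop := by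
  refine tendsto_atTop.2 fun b => ?_
  filter_upwards [hL.eventually (eventually_ge_atTop b), hM.eventually (eventually_ge_atTop b)]
    with T h1 h2
  exact le_min h1 h2

/-- The upper bound of the lower limit along `L`. -/
theorem low_le {m : Mt Γ D} {L Lam : ℝ → ℝ} (hL : Tendsto L atTop atTop)
    (hLam : Tendsto Lam atTop atTop) (hfr : ∃ᶠ T in atTop, L T ≤ Lam T)
    (h : ∀ L' : ℝ → ℝ, Tendsto L' atTop atTop → (∀ᶠ T in atTop, L' T ≤ Lam T) → GOEMeans m L')
    {a : ℝ → ℂ} (ha : IsAmp a) (k : ℕ) :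
    lowMom m (tf a) L k ≤ normMom (FE35.vGOE (tf a)) k := by
  have h1 := (h (fun T => min (L T) (Lam T)) (tendsto_min_atTop hL hLam)
    (Eventually.of_forall fun T => min_le_right _ _) a ha).2 (2 * k)
  rw [varGOE_eq ha, gauss_moments, Real.coe_toNNReal _ (vg_nonneg a)] at h1
  have h2 := (ENNReal.continuous_ofReal.tendsto _).comp h1
  rw [vGOE_tf ha, normMom_ofReal (vg_nonneg a)]
  refine le_of_forall_gt_imp_ge_of_dense fun b hb => ?_
  have h3 : ∀ᶠ T in atTop, ENNReal.ofReal (FE35.tmean T fun τ =>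
      FE35.stat m (tf a) (min (L T) (Lam T)) τ ^ (2 * k)) < b :=
    h2.eventually (gt_mem_nhds hb)
  refine liminf_le_of_frequently_le' ((hfr.and_eventually h3).mono fun T hT => ?_)
  have h4 := hT.2
  rw [min_eq_left hT.1] at h4
  exact h4.le

/-- Every metric. -/
theorem low_ge (hX : Surface Γ D) (hO : BR.Ori Γ) (m : Mt Γ D) {L : ℝ → ℝ}
    (hL : Tendsto L atTop atTop) (hL' : Tendsto (fun T => L T / Real.log T) atTop (𝓝 0))
    {f : ℝ → ℝ} (hf : FE35.IsTest f) {k : ℕ} (hk : k = 1 ∨ PosFour f) :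
    normMom (FE35.vGOE f) k ≤ lowMom m f L k := by
  have h1 := GD.every_metric hX hO m (SR85Z.sumrule hX hO m) hL hL' hf
  rcases hk with rfl | hk
  · have h2 : normMom (FE35.vGOE f) 1 = FE35.vGOE f := by
      unfold normMom
      norm_num
    rw [h2]
    exact h1.1
  · exact h1.2 hk k

end EM73
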