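import Pool.Agent.LibFE35.Defs

/-!
Fluctuations of the spectrum of every metric of negative curvature, and of the generic one: the
definitions of the final statement which are not in `LibFE35/Defs.lean`.
-/

open MeasureTheory Set Filter Topology BGS FE35
open scoped ENNReal

namespace EM73

/-- The Fourier transform of `f` is real and nonnegative. -/
def PosFour (f : ℝ → ℝ) : Prop := ∀ ξ, 0 ≤ (four f ξ).re ∧ (four f ξ).im = 0

/-- `(2 k - 1)!! v ^ k`, the moment of order `2 k` of the normal distribution with mean zero and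
variance `v`. -/
noncomputable def normMom (v : ℝ≥0∞) (k : ℕ) : ℝ≥0∞ :=
  ((2 * k - 1).doubleFactorial : ℝ≥0∞) * v ^ k

/-- The lower limit, for `T → ∞`, of the mean over `[0, T]` with the density `2 (T - τ) / T²` of
the `2 k`-th power of the linear statistic of `m` in windows of length `1 / L (T)`. -/
noncomputable def lowMom {Γ : Type} [Group Γ] [MulAction Γ Pl] {D : Set Pl} (m : Mt Γ D)
    (f : ℝ → ℝ) (L : ℝ → ℝ) (k : ℕ) : ℝ≥0∞ :=
  liminf (fun T : ℝ => ENNReal.ofReal (tmean T fun τ => stat m f (L T) τ ^ (2 * k))) atTop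

/-- The linear statistics of `m` in windows of length `1 / L (T)` around a random `τ` in `[0, T]`
with the density `2 (T - τ) / T²` converge for `T → ∞` in distribution, and with all moments, to
the normal distribution with mean zero and the variance of the GOE. -/
def GOEMeans {Γ : Type} [Group Γ] [MulAction Γ Pl] {D : Set Pl} (m : Mt Γ D) (L : ℝ → ℝ) :
    Prop :=
  ∀ a : ℝ → ℂ, FG33.IsAmp a →
    (∀ F : ℝ → ℝ, Continuous F → (∃ B, ∀ y, |F y| ≤ B) →
      Tendsto (fun T : ℝ => tmean T fun τ => F (stat m (FG33.tf a) (L T) τ)) atTop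
        (𝓝 (∫ y, F y ∂(ProbabilityTheory.gaussianReal 0 (FG33.varGOE a))))) ∧
    ∀ r : ℕ, Tendsto (fun T : ℝ => tmean T fun τ => stat m (FG33.tf a) (L T) τ ^ r) atTop
        (𝓝 (∫ y, y ^ r ∂(ProbabilityTheory.gaussianReal 0 (FG33.varGOE a))))

end EM73
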