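import Mathlib

/-! Row N1 (only Mathlib): the mean over `[0, T]` with triangular weight. 30 min.
Plan. `∫ u in 0..T, (T - u) cos (u ω) = (1 - cos (T ω)) / ω²` and
`∫ u in 0..T, (T - u) sin (u ω) = T / ω - sin (T ω) / ω²` (antiderivatives
`(T - u) sin (u ω) / ω - cos (u ω) / ω²` and `-(T - u) cos (u ω) / ω - sin (u ω) / ω²`,
`intervalIntegral.integral_eq_sub_of_hasDerivAt`). `tm_sin_le`: `|sin x| ≤ |x|`. -/

open MeasureTheory Set Filter Topology

namespace EM73

/-- The mean over `[0, T]` with the triangular weight `2 (T - u) / T²` (the second Cesàro mean). -/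
noncomputable def tm (T : ℝ) (f : ℝ → ℝ) : ℝ := 2 / T ^ 2 * ∫ u in (0 : ℝ)..T, (T - u) * f u

private theorem N1_weight (T : ℝ) : ∫ u in (0 : ℝ)..T, (T - u) = T ^ 2 / 2 := by
  have h : ∀ x ∈ uIcc (0 : ℝ) T, HasDerivAt (fun u : ℝ => T * u - u ^ 2 / 2) (T - x) x := by
    intro x _
    have h1 : HasDerivAt (fun u : ℝ => T * u) (T * 1) x := (hasDerivAt_id x).const_mul T
    have h2 : HasDerivAt (fun u : ℝ => u ^ 2 / 2) ((2 : ℕ) * x ^ (2 - 1) / 2) x :=
      (hasDerivAt_pow 2 x).div_const 2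
    have h3 := h1.sub h2
    refine h3.congr_deriv ?_
    norm_num
  have hc : Continuous (fun u : ℝ => T - u) := by fun_prop
  rw [intervalIntegral.integral_eq_sub_of_hasDerivAt h (hc.intervalIntegrable _ _)]
  ring

theorem tm_const {T : ℝ} (hT : 0 < T) (c : ℝ) : tm T (fun _ => c) = c := by
  unfold tm
  rw [intervalIntegral.integral_mul_const, N1_weight]
  field_simp

theorem tm_mul (T c : ℝ) (f : ℝ → ℝ) : tm T (fun u => c * f u) = c * tm T f := by
  unfold tm
  have h : (fun u : ℝ => (T - u) * (c * f u)) = fun u => c * ((T - u) * f u) := by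
    funext u; ring
  rw [h, intervalIntegral.integral_const_mul]
  ring

theorem tm_sum {ι : Type} (s : Finset ι) (f : ι → ℝ → ℝ) (hf : ∀ i ∈ s, Continuous (f i))
    (T : ℝ) : tm T (fun u => ∑ i ∈ s, f i u) = ∑ i ∈ s, tm T (f i) := by
  unfold tm
  rw [← Finset.mul_sum]
  congr 1
  have h : (fun u : ℝ => (T - u) * ∑ i ∈ s, f i u) = fun u => ∑ i ∈ s, (T - u) * f i u := by
    funext u; rw [Finset.mul_sum]
  rw [h, intervalIntegral.integral_finsetSum]
  intro i hi
  have hc : Continuous (fun u : ℝ => (T - u) * f i u) :=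
    (continuous_const.sub continuous_id).mul (hf i hi)
  exact hc.intervalIntegrable _ _

theorem tm_mono {T : ℝ} (hT : 0 < T) {f g : ℝ → ℝ} (hf : Continuous f) (hg : Continuous g)
    (h : ∀ u, 0 ≤ u → u ≤ T → f u ≤ g u) : tm T f ≤ tm T g := by
  unfold tm
  have hcf : Continuous (fun u : ℝ => (T - u) * f u) :=
    (continuous_const.sub continuous_id).mul hf
  have hcg : Continuous (fun u : ℝ => (T - u) * g u) :=
    (continuous_const.sub continuous_id).mul hg
  refine mul_le_mul_of_nonneg_left ?_ (by positivity)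
  refine intervalIntegral.integral_mono_on hT.le (hcf.intervalIntegrable _ _)
    (hcg.intervalIntegrable _ _) ?_
  intro u hu
  exact mul_le_mul_of_nonneg_left (h u hu.1 hu.2) (by linarith [hu.2])

theorem tm_abs_le {T : ℝ} (hT : 0 < T) {f : ℝ → ℝ} (hf : Continuous f) {B : ℝ}
    (hB : ∀ u, 0 ≤ u → u ≤ T → |f u| ≤ B) : |tm T f| ≤ B := by
  rw [abs_le]
  constructor
  · have h := tm_mono hT (f := fun _ => -B) (g := f) continuous_const hf
      (fun u h0 h1 => (abs_le.1 (hB u h0 h1)).1)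
    rwa [tm_const hT] at h
  · have h := tm_mono hT (f := f) (g := fun _ => B) hf continuous_const
      (fun u h0 h1 => (abs_le.1 (hB u h0 h1)).2)
    rwa [tm_const hT] at h

theorem tm_cos {T ω : ℝ} (hT : 0 < T) (hω : ω ≠ 0) :
    tm T (fun u => Real.cos (u * ω)) = 2 * (1 - Real.cos (T * ω)) / (T * ω) ^ 2 := by
  have h : ∀ x ∈ uIcc (0 : ℝ) T,
      HasDerivAt (fun u : ℝ => (T - u) * (Real.sin (u * ω) / ω) - Real.cos (u * ω) / ω ^ 2)
        ((T - x) * Real.cos (x * ω)) x := by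
    intro x _
    have h0 : HasDerivAt (fun u : ℝ => u * ω) ω x := by
      simpa using (hasDerivAt_id x).mul_const ω
    have h1 : HasDerivAt (fun u : ℝ => T - u) (-1) x := by
      simpa using (hasDerivAt_id x).const_sub T
    have h2 : HasDerivAt (fun u : ℝ => Real.sin (u * ω) / ω) (Real.cos (x * ω) * ω / ω) x :=
      h0.sin.div_const ω
    have h3 : HasDerivAt (fun u : ℝ => Real.cos (u * ω) / ω ^ 2)
        (-Real.sin (x * ω) * ω / ω ^ 2) x := h0.cos.div_const _
    have h4 := (h1.mul h2).sub h3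
    refine h4.congr_deriv ?_
    field_simp
    ring
  have hc : Continuous (fun u : ℝ => (T - u) * Real.cos (u * ω)) := by fun_prop
  unfold tm
  rw [intervalIntegral.integral_eq_sub_of_hasDerivAt h (hc.intervalIntegrable _ _)]
  have hT' := hT.ne'
  simp only [sub_self, zero_mul, Real.sin_zero, Real.cos_zero, zero_div, mul_zero, sub_zero,
    zero_sub]
  field_simp
  ring

theorem tm_sin {T ω : ℝ} (hT : 0 < T) (hω : ω ≠ 0) :
    tm T (fun u => Real.sin (u * ω)) = 2 / (T * ω) - 2 * Real.sin (T * ω) / (T * ω) ^ 2 := by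
  have h : ∀ x ∈ uIcc (0 : ℝ) T,
      HasDerivAt (fun u : ℝ => -((T - u) * (Real.cos (u * ω) / ω)) - Real.sin (u * ω) / ω ^ 2)
        ((T - x) * Real.sin (x * ω)) x := by
    intro x _
    have h0 : HasDerivAt (fun u : ℝ => u * ω) ω x := by
      simpa using (hasDerivAt_id x).mul_const ω
    have h1 : HasDerivAt (fun u : ℝ => T - u) (-1) x := by
      simpa using (hasDerivAt_id x).const_sub T
    have h2 : HasDerivAt (fun u : ℝ => Real.cos (u * ω) / ω) (-Real.sin (x * ω) * ω / ω) x :=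
      h0.cos.div_const ω
    have h3 : HasDerivAt (fun u : ℝ => Real.sin (u * ω) / ω ^ 2)
        (Real.cos (x * ω) * ω / ω ^ 2) x := h0.sin.div_const _
    have h4 := ((h1.mul h2).neg).sub h3
    refine h4.congr_deriv ?_
    field_simp
    ring
  have hc : Continuous (fun u : ℝ => (T - u) * Real.sin (u * ω)) := by fun_prop
  unfold tm
  rw [intervalIntegral.integral_eq_sub_of_hasDerivAt h (hc.intervalIntegrable _ _)]
  have hT' := hT.ne'
  simp only [sub_self, zero_mul, Real.sin_zero, Real.cos_zero, zero_div, sub_zero,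
    zero_sub, neg_zero]
  field_simp
  ring

theorem tm_cos_nonneg {T : ℝ} (hT : 0 < T) (ω : ℝ) : 0 ≤ tm T (fun u => Real.cos (u * ω)) := by
  rcases eq_or_ne ω 0 with rfl | hω
  · have h : (fun u : ℝ => Real.cos (u * 0)) = fun _ => (1 : ℝ) := by
      funext u; simp
    rw [h, tm_const hT]
    exact zero_le_one
  · rw [tm_cos hT hω]
    have h1 := Real.cos_le_one (T * ω)
    have h2 : 0 ≤ 2 * (1 - Real.cos (T * ω)) := by linarith
    positivity

theorem tm_cos_le {T ω : ℝ} (hT : 0 < T) (hω : ω ≠ 0) :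
    tm T (fun u => Real.cos (u * ω)) ≤ 4 / (T * ω) ^ 2 := by
  rw [tm_cos hT hω]
  have h1 := Real.neg_one_le_cos (T * ω)
  refine div_le_div_of_nonneg_right ?_ (by positivity)
  linarith

theorem tm_sin_le {T ω : ℝ} (hT : 0 < T) (hω : ω ≠ 0) :
    |tm T (fun u => Real.sin (u * ω))| ≤ 4 / (T * |ω|) := by
  rw [tm_sin hT hω]
  have hx : T * ω ≠ 0 := mul_ne_zero hT.ne' hω
  have hax : T * |ω| = |T * ω| := by rw [abs_mul, abs_of_pos hT]
  rw [hax]
  set x := T * ω with hxd
  have hpos : 0 < |x| := abs_pos.2 hx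
  have h1 : |2 / x| = 2 / |x| := by rw [abs_div, abs_of_pos (by norm_num : (0 : ℝ) < 2)]
  have h2 : |2 * Real.sin x / x ^ 2| ≤ 2 / |x| := by
    rw [abs_div, abs_mul, abs_of_pos (by norm_num : (0 : ℝ) < 2), abs_pow, div_le_div_iff₀
      (by positivity) hpos]
    have h3 : |Real.sin x| ≤ |x| := Real.abs_sin_le_abs
    nlinarith [mul_le_mul_of_nonneg_right h3 hpos.le]
  calc |2 / x - 2 * Real.sin x / x ^ 2| ≤ |2 / x| + |2 * Real.sin x / x ^ 2| := abs_sub _ _
    _ ≤ 2 / |x| + 2 / |x| := by rw [h1]; linarith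
    _ = 4 / |x| := by ring

end EM73
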