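import Pool.Agent.LibEM73.N1
import Pool.Agent.LibGW18.Tor

/-! Row N2: the triangular mean of the powers of a trigonometric sum, compared with the torus. 45 min.
Plan. As in `time_torus` (LibGW18/Tor): `pow_expand` on both sides, `torus_mono` on the torus;
`tm T (u ↦ cos (u Λ))`, `tm T (u ↦ sin (u Λ))` for the monomials, `Λ = Λ_f = ∑ t, sg * (k * ℓ (π _))`
(`expo_sum` with `x = ℓ`: `Λ_f = ∑ p, expo p * ℓ p`, so `Λ_f = 0` if all exponents vanish). Take real parts:
`tm T (u ↦ Re (z * ex (u Λ))) = Re z * tm cos + Im z * tm sin` (`ex x = cos x - i sin x`).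
`time_low`: the coefficients `∏ cf2 = ∏ A / 2` are real and `≥ 0`, `tm cos ≥ 0` (`tm_cos_nonneg`) and
`= 1` if `Λ = 0`: the difference is a sum of terms `≥ 0`.
`time_torus_tm`: for `T δ < 1` trivial (both terms are at most `(∑ ‖c‖) ^ r` in absolute value; or monomial by
monomial); otherwise for `|Λ| ≥ δ`: `|tm cos| ≤ 4 / (T δ)^2 ≤ 4 / (T δ)`, `|tm sin| ≤ 4 / (T δ)`; `cf2_sum`. -/

open MeasureTheory Set Filter Topology

namespace EM73

open GWin

private theorem N2_re (z : ℂ) (x : ℝ) : (z * ex x).re = z.re * Real.cos x + z.im * Real.sin x := by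
  have h1 : ex x = Complex.exp (((-x : ℝ) : ℂ) * Complex.I) := by
    unfold ex
    push_cast
    ring_nf
  rw [Complex.mul_re, h1, Complex.exp_ofReal_mul_I_re, Complex.exp_ofReal_mul_I_im, Real.cos_neg,
    Real.sin_neg]
  ring

/-- frequency of the monomial of `f` -/
private noncomputable def N2_L {ι P : Type} (π : ι → P) (k : ι → ℤ) (ℓ : P → ℝ) {r : ℕ}
    (f : Fin r → ι × Bool) : ℝ := ∑ t, (sg (f t).2 : ℝ) * (k (f t).1 * ℓ (π (f t).1))

private theorem N2_time {ι P : Type} (S : Finset ι) (π : ι → P) (k : ι → ℤ)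
    (c : ι → ℂ) (ℓ : P → ℝ) (r : ℕ) (T : ℝ) :
    tm T (fun u => (∑ q ∈ S, (c q * ex (u * (k q * ℓ (π q)))).re) ^ r) =
      ∑ f ∈ Fintype.piFinset (fun _ : Fin r => S ×ˢ (Finset.univ : Finset Bool)),
        ((∏ t, cf2 c (f t)).re * tm T (fun u => Real.cos (u * N2_L π k ℓ f)) +
          (∏ t, cf2 c (f t)).im * tm T (fun u => Real.sin (u * N2_L π k ℓ f))) := by
  have h1 : ∀ u : ℝ, (∑ q ∈ S, (c q * ex (u * (k q * ℓ (π q)))).re) ^ r =
      ∑ f ∈ Fintype.piFinset (fun _ : Fin r => S ×ˢ (Finset.univ : Finset Bool)),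
        ((∏ t, cf2 c (f t)).re * Real.cos (u * N2_L π k ℓ f) +
          (∏ t, cf2 c (f t)).im * Real.sin (u * N2_L π k ℓ f)) := by
    intro u
    have h2 := pow_expand S c (fun q => u * (k q * ℓ (π q))) r
    have h3 := congrArg Complex.re h2
    rw [Complex.ofReal_re, Complex.re_sum] at h3
    rw [h3]
    refine Finset.sum_congr rfl fun f _ => ?_
    rw [N2_re]
    have h4 : ∑ t, (sg (f t).2 : ℝ) * (u * (k (f t).1 * ℓ (π (f t).1))) = u * N2_L π k ℓ f := by
      unfold N2_L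
      rw [Finset.mul_sum]
      exact Finset.sum_congr rfl fun t _ => by ring
    rw [h4]
  have h5 : (fun u : ℝ => (∑ q ∈ S, (c q * ex (u * (k q * ℓ (π q)))).re) ^ r) = fun u : ℝ =>
      ∑ f ∈ Fintype.piFinset (fun _ : Fin r => S ×ˢ (Finset.univ : Finset Bool)),
        ((∏ t, cf2 c (f t)).re * Real.cos (u * N2_L π k ℓ f) +
          (∏ t, cf2 c (f t)).im * Real.sin (u * N2_L π k ℓ f)) := funext h1
  rw [h5, tm_sum _ (fun f u => ((∏ t, cf2 c (f t)).re * Real.cos (u * N2_L π k ℓ f) +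
          (∏ t, cf2 c (f t)).im * Real.sin (u * N2_L π k ℓ f)))]
  · refine Finset.sum_congr rfl fun f _ => ?_
    have h6 := tm_sum (Finset.univ : Finset Bool) (fun b u =>
      if b then (∏ t, cf2 c (f t)).re * Real.cos (u * N2_L π k ℓ f)
        else (∏ t, cf2 c (f t)).im * Real.sin (u * N2_L π k ℓ f))
      (by
        intro b _
        cases b
        · simp only [Bool.false_eq_true, if_false]; fun_prop
        · simp only [if_true]; fun_prop) T
    simp only [Fintype.sum_bool, if_true, Bool.false_eq_true, if_false] at h6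
    rw [h6, tm_mul, tm_mul]
  · intro f _
    fun_prop

private theorem N2_torus {ι P : Type} [Fintype P] [DecidableEq P] (S : Finset ι) (π : ι → P)
    (k : ι → ℤ) (c : ι → ℂ) (r : ℕ) :
    ∫ θ : P → ℝ, (∑ q ∈ S, (c q * ex (2 * Real.pi * (k q * θ (π q)))).re) ^ r
        ∂(Measure.pi fun _ => un) =
      ∑ f ∈ Fintype.piFinset (fun _ : Fin r => S ×ˢ (Finset.univ : Finset Bool)),
        (∏ t, cf2 c (f t)).re * (if ∀ p, expo π k f p = 0 then 1 else 0) := by
  have e3 : ((∫ θ : P → ℝ, (∑ q ∈ S, (c q * ex (2 * Real.pi * (k q * θ (π q)))).re) ^ r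
      ∂(Measure.pi fun _ => un) : ℝ) : ℂ) =
      ∑ f ∈ Fintype.piFinset (fun _ : Fin r => S ×ˢ (Finset.univ : Finset Bool)),
        (∏ t, cf2 c (f t)) * (if ∀ p, expo π k f p = 0 then 1 else 0) := by
    rw [← integral_complex_ofReal]
    simp_rw [pow_expand]
    rw [integral_finsetSum]
    · refine Finset.sum_congr rfl fun f _ => ?_
      rw [integral_const_mul, torus_mono]
    · intro f _
      refine Integrable.const_mul ?_ _
      refine Integrable.of_bound ?_ 1 (Eventually.of_forall fun θ => by rw [ex_norm])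
      refine (ex_cont.comp ?_).aestronglyMeasurable
      fun_prop
  have h := congrArg Complex.re e3
  rw [Complex.ofReal_re, Complex.re_sum] at h
  rw [h]
  refine Finset.sum_congr rfl fun f _ => ?_
  split_ifs
  · simp
  · simp

private theorem N2_L_zero {ι P : Type} [Fintype P] [DecidableEq P] (π : ι → P) (k : ι → ℤ)
    (ℓ : P → ℝ) {r : ℕ} (f : Fin r → ι × Bool) (h : ∀ p, expo π k f p = 0) : N2_L π k ℓ f = 0 := by
  unfold N2_L
  rw [expo_sum]
  refine Finset.sum_eq_zero fun p _ => ?_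
  rw [h p]
  simp

private theorem N2_cos0 {T : ℝ} (hT : 0 < T) : tm T (fun u => Real.cos (u * 0)) = 1 := by
  have : (fun u : ℝ => Real.cos (u * 0)) = fun _ => (1 : ℝ) := by
    funext u
    simp
  rw [this, tm_const hT]

private theorem N2_sin0 {T : ℝ} (hT : 0 < T) : tm T (fun u => Real.sin (u * 0)) = 0 := by
  have : (fun u : ℝ => Real.sin (u * 0)) = fun _ => (0 : ℝ) := by
    funext u
    simp
  rw [this, tm_const hT]

private theorem N2_real {ι : Type} (A : ι → ℝ) (S : Finset ι) (hA : ∀ q ∈ S, 0 ≤ A q) {r : ℕ}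
    (f : Fin r → ι × Bool) (hf : ∀ t, (f t).1 ∈ S) :
    ∃ a : ℝ, 0 ≤ a ∧ (∏ t, cf2 (fun q => ((A q : ℝ) : ℂ)) (f t)) = (a : ℂ) := by
  refine ⟨∏ t, (A (f t).1 / 2), Finset.prod_nonneg fun t _ => div_nonneg (hA _ (hf t)) (by norm_num),
    ?_⟩
  rw [Complex.ofReal_prod]
  refine Finset.prod_congr rfl fun t _ => ?_
  unfold cf2
  split_ifs
  · push_cast
    rfl
  · simp

theorem time_low {ι P : Type} [Fintype P] [DecidableEq P] (S : Finset ι) (π : ι → P) (k : ι → ℤ)
    (A : ι → ℝ) (hA : ∀ q ∈ S, 0 ≤ A q) (ℓ : P → ℝ) (r : ℕ) {T : ℝ} (hT : 0 < T) :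
    ∫ θ : P → ℝ, (∑ q ∈ S, (((A q : ℝ) : ℂ) * ex (2 * Real.pi * (k q * θ (π q)))).re) ^ r
        ∂(Measure.pi fun _ => un) ≤
      tm T fun u => (∑ q ∈ S, (((A q : ℝ) : ℂ) * ex (u * (k q * ℓ (π q)))).re) ^ r := by
  rw [N2_torus S π k (fun q => ((A q : ℝ) : ℂ)) r, N2_time S π k (fun q => ((A q : ℝ) : ℂ)) ℓ r T]
  refine Finset.sum_le_sum fun f hf => ?_
  have hS : ∀ t, (f t).1 ∈ S := fun t => by
    have := Fintype.mem_piFinset.1 hf t
    exact (Finset.mem_product.1 this).1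
  obtain ⟨a, ha, he⟩ := N2_real A S hA f hS
  rw [he, Complex.ofReal_re, Complex.ofReal_im, zero_mul, add_zero]
  refine mul_le_mul_of_nonneg_left ?_ ha
  split_ifs with h
  · rw [N2_L_zero π k ℓ f h, N2_cos0 hT]
  · exact tm_cos_nonneg hT _

theorem time_torus_tm {ι P : Type} [Fintype P] [DecidableEq P] (S : Finset ι) (π : ι → P)
    (k : ι → ℤ) (c : ι → ℂ) (ℓ : P → ℝ) (r : ℕ) {δ T : ℝ} (hδ : 0 < δ) (hT : 0 < T)
    (hsep : ∀ f : Fin r → ι × Bool, (∀ t, (f t).1 ∈ S) → (¬ ∀ p, expo π k f p = 0) →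
      δ ≤ |∑ t, (sg (f t).2 : ℝ) * (k (f t).1 * ℓ (π (f t).1))|) :
    |tm T (fun u => (∑ q ∈ S, (c q * ex (u * (k q * ℓ (π q)))).re) ^ r) -
      ∫ θ : P → ℝ, (∑ q ∈ S, (c q * ex (2 * Real.pi * (k q * θ (π q)))).re) ^ r
        ∂(Measure.pi fun _ => un)| ≤ 8 * (∑ q ∈ S, ‖c q‖) ^ r / (T * δ) := by
  rw [N2_torus S π k c r, N2_time S π k c ℓ r T, ← Finset.sum_sub_distrib]
  refine (Finset.abs_sum_le_sum_abs _ _).trans ?_
  have hTδ : 0 < T * δ := mul_pos hT hδ
  have hterm : ∀ f ∈ Fintype.piFinset (fun _ : Fin r => S ×ˢ (Finset.univ : Finset Bool)),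
      |(∏ t, cf2 c (f t)).re * tm T (fun u => Real.cos (u * N2_L π k ℓ f)) +
          (∏ t, cf2 c (f t)).im * tm T (fun u => Real.sin (u * N2_L π k ℓ f)) -
        (∏ t, cf2 c (f t)).re * (if ∀ p, expo π k f p = 0 then 1 else 0)| ≤
      ‖∏ t, cf2 c (f t)‖ * (8 / (T * δ)) := by
    intro f hf
    set z := ∏ t, cf2 c (f t) with hz
    by_cases h : ∀ p, expo π k f p = 0
    · rw [if_pos h, N2_L_zero π k ℓ f h, N2_cos0 hT, N2_sin0 hT]
      have : z.re * 1 + z.im * 0 - z.re * 1 = 0 := by ring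
      rw [this, abs_zero]
      positivity
    · rw [if_neg h, mul_zero, sub_zero]
      have hS : ∀ t, (f t).1 ∈ S := fun t => by
        have := Fintype.mem_piFinset.1 hf t
        exact (Finset.mem_product.1 this).1
      have h1 : δ ≤ |N2_L π k ℓ f| := hsep f hS h
      have hL : N2_L π k ℓ f ≠ 0 := by
        intro h3
        rw [h3, abs_zero] at h1
        linarith
      have hLa : 0 < |N2_L π k ℓ f| := abs_pos.2 hL
      have hsin : |tm T (fun u => Real.sin (u * N2_L π k ℓ f))| ≤ 4 / (T * δ) := by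
        refine (tm_sin_le hT hL).trans ?_
        exact div_le_div_of_nonneg_left (by norm_num) hTδ (mul_le_mul_of_nonneg_left h1 hT.le)
      have hcos : |tm T (fun u => Real.cos (u * N2_L π k ℓ f))| ≤ 4 / (T * δ) := by
        rcases le_or_gt 1 (T * δ) with h2 | h2
        · rw [abs_of_nonneg (tm_cos_nonneg hT _)]
          refine (tm_cos_le hT hL).trans ?_
          refine div_le_div_of_nonneg_left (by norm_num) hTδ ?_
          have h3 : T * δ ≤ T * |N2_L π k ℓ f| := mul_le_mul_of_nonneg_left h1 hT.le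
          have h4 : (T * N2_L π k ℓ f) ^ 2 = (T * |N2_L π k ℓ f|) ^ 2 := by
            rw [mul_pow, mul_pow, sq_abs]
          rw [h4]
          nlinarith
        · have h3 : |tm T (fun u => Real.cos (u * N2_L π k ℓ f))| ≤ 1 :=
            tm_abs_le hT (by fun_prop) fun u _ _ => Real.abs_cos_le_one _
          refine h3.trans ?_
          rw [le_div_iff₀ hTδ]
          linarith
      calc |z.re * tm T (fun u => Real.cos (u * N2_L π k ℓ f)) +
            z.im * tm T (fun u => Real.sin (u * N2_L π k ℓ f))|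
          ≤ |z.re * tm T (fun u => Real.cos (u * N2_L π k ℓ f))| +
            |z.im * tm T (fun u => Real.sin (u * N2_L π k ℓ f))| := abs_add_le _ _
        _ = |z.re| * |tm T (fun u => Real.cos (u * N2_L π k ℓ f))| +
            |z.im| * |tm T (fun u => Real.sin (u * N2_L π k ℓ f))| := by rw [abs_mul, abs_mul]
        _ ≤ ‖z‖ * (4 / (T * δ)) + ‖z‖ * (4 / (T * δ)) :=
            add_le_add (mul_le_mul (Complex.abs_re_le_norm z) hcos (abs_nonneg _) (norm_nonneg _))
              (mul_le_mul (Complex.abs_im_le_norm z) hsin (abs_nonneg _) (norm_nonneg _))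
        _ = ‖z‖ * (8 / (T * δ)) := by ring
  refine (Finset.sum_le_sum hterm).trans (le_of_eq ?_)
  rw [← Finset.sum_mul, cf2_sum]
  ring

end EM73
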