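import Pool.Agent.LibEM73.N2
import Pool.Agent.LibGW18.Mom

/-! Row N3: Gaussian moments for the triangular mean. 45 min.
Plan. `model_moments`: this is the second half of the proof of `moments_fin` (LibGW18/Mom): copy it (everything
except `time_torus`; `ind_moments`, `un_re`, `un_var`, `un_cross` are public; `ex_int` is private there, copy it).
`tm_moments_low`: `time_low` and `model_moments` on the subtypes `{q // q ∈ S}`, `{p // p ∈ S.image Prod.fst}` as in
the proof of `torus_moments` (same file). `tm_moments`: copy the proof of `torus_moments` with `time_torus_tm` and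
`model_moments` in place of `moments_fin`. -/

open MeasureTheory ProbabilityTheory Set Filter Topology Mes

namespace EM73

open GWin

private theorem N3_ex_int (c : ℂ) (x : ℝ → ℝ) (hx : Continuous x) :
    Integrable (fun t => c * ex (x t)) un := by
  refine Integrable.const_mul ?_ _
  exact Integrable.of_bound (ex_cont.comp hx).aestronglyMeasurable 1
    (Eventually.of_forall fun θ => by rw [ex_norm])

theorem model_moments (r : ℕ) : ∃ C : ℝ, 0 ≤ C ∧ ∀ (ι P : Type) [Fintype P] [DecidableEq P]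
    (S : Finset ι) (π : ι → P) (k : ι → ℤ) (c : ι → ℂ) (a : ℝ), 0 ≤ a → a ≤ 1 →
    (∀ q ∈ S, 1 ≤ k q) →
    (∀ q ∈ S, ∀ q' ∈ S, π q = π q' → k q = k q' → q = q') →
    (∀ p, ∑ q ∈ S with π q = p, ‖c q‖ ≤ a) →
    |(∫ θ : P → ℝ, (∑ q ∈ S, (c q * ex (2 * Real.pi * (k q * θ (π q)))).re) ^ r
        ∂(Measure.pi fun _ => un)) - gaussMom (∑ q ∈ S, ‖c q‖ ^ 2 / 2) r| ≤
      C * (1 + √(∑ q ∈ S, ‖c q‖ ^ 2 / 2)) ^ r * a := by
  obtain ⟨C, hC0, hC⟩ := ind_moments r
  refine ⟨C, hC0, ?_⟩
  intro ι P _ _ S π k c a ha0 ha1 hk hinj ha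
  obtain ⟨y, hy⟩ : ∃ y : P → ℝ → ℝ, ∀ p t, y p t =
      ∑ q ∈ S with π q = p, (c q * ex (2 * Real.pi * (k q * t))).re := ⟨_, fun _ _ => rfl⟩
  have hyc : ∀ p, Continuous (y p) := by
    intro p
    have : y p = fun t => ∑ q ∈ S with π q = p, (c q * ex (2 * Real.pi * (k q * t))).re := by
      funext t
      exact hy p t
    rw [this]
    refine continuous_finsetSum _ fun q _ => ?_
    exact Complex.continuous_re.comp (continuous_const.mul (ex_cont.comp (by fun_prop)))
  have hev : ∀ (p : P) (g : ℝ → ℝ), Continuous g →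
      ∫ θ : P → ℝ, g (θ p) ∂(Measure.pi fun _ => un) = ∫ t, g t ∂un := by
    intro p g hg
    have h2 := (measurePreserving_eval (fun _ : P => un) p).map_eq
    have h3 := integral_map (μ := Measure.pi fun _ : P => un) (φ := Function.eval p)
      (measurable_pi_apply p).aemeasurable (f := g) (by
        rw [h2]
        exact hg.aestronglyMeasurable)
    rw [h2] at h3
    rw [h3]
  have h2 := hC (P → ℝ) (Measure.pi fun _ => un) P (fun p θ => y p (θ p)) a
    (iIndepFun_pi fun p => (hyc p).aemeasurable)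
    (fun p => (hyc p).measurable.comp (measurable_pi_apply p))
    (fun p θ => by
      rw [hy]
      refine (Finset.abs_sum_le_sum_abs _ _).trans (le_trans ?_ (ha p))
      refine Finset.sum_le_sum fun q _ => ?_
      refine (Complex.abs_re_le_norm _).trans ?_
      rw [norm_mul, ex_norm, mul_one]) ha0 ha1
    (fun p => by
      rw [hev p (y p) (hyc p)]
      simp_rw [hy]
      have hre : ∀ q, Integrable (fun t => (c q * ex (2 * Real.pi * (k q * t))).re) un := fun q =>
        (N3_ex_int (c q) (fun t => 2 * Real.pi * (k q * t)) (by fun_prop)).re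
      rw [integral_finsetSum _ fun q _ => hre q]
      refine Finset.sum_eq_zero fun q hq => ?_
      have h3 := hk q (Finset.mem_filter.1 hq).1
      have h4 := un_re (c q) (k q)
      rw [if_neg (by omega)] at h4
      exact h4) Finset.univ
  have h3 : ∀ θ : P → ℝ, ∑ p, y p (θ p) =
      ∑ q ∈ S, (c q * ex (2 * Real.pi * (k q * θ (π q)))).re := by
    intro θ
    rw [← Finset.sum_fiberwise S π]
    refine Finset.sum_congr rfl fun p _ => ?_
    rw [hy]
    refine Finset.sum_congr rfl fun q hq => ?_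
    rw [(Finset.mem_filter.1 hq).2]
  have h4 : ∑ p, ∫ θ : P → ℝ, y p (θ p) ^ 2 ∂(Measure.pi fun _ => un) =
      ∑ q ∈ S, ‖c q‖ ^ 2 / 2 := by
    rw [← Finset.sum_fiberwise S π]
    refine Finset.sum_congr rfl fun p _ => ?_
    rw [hev p (fun t => y p t ^ 2) ((hyc p).pow 2)]
    simp_rw [hy]
    refine un_var _ k c (fun q hq => hk q (Finset.mem_filter.1 hq).1) fun q hq q' hq' h5 => ?_
    have h6 := Finset.mem_filter.1 hq
    have h7 := Finset.mem_filter.1 hq'
    exact hinj q h6.1 q' h7.1 (h6.2.trans h7.2.symm) h5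
  simp_rw [h3] at h2
  rw [h4] at h2
  exact h2

theorem tm_moments_low (r : ℕ) : ∃ C : ℝ, 0 ≤ C ∧ ∀ (P : Type) (ℓ : P → ℝ) (S : Finset (P × ℕ))
    (A : P × ℕ → ℝ) (T a : ℝ), (∀ q ∈ S, 1 ≤ q.2) → (∀ q ∈ S, 0 ≤ A q) → 0 < T → 0 ≤ a → a ≤ 1 →
    (∀ p, ∀ S' ⊆ S, (∀ q ∈ S', q.1 = p) → ∑ q ∈ S', A q ≤ a) →
    gaussMom (∑ q ∈ S, A q ^ 2 / 2) r - C * (1 + √(∑ q ∈ S, A q ^ 2 / 2)) ^ r * a ≤
      tm T fun u => (∑ q ∈ S, (((A q : ℝ) : ℂ) *
        Complex.exp (-((u * (q.2 * ℓ q.1) : ℝ) : ℂ) * Complex.I)).re) ^ r := by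
  classical
  obtain ⟨C, hC0, hC⟩ := model_moments r
  refine ⟨C, hC0, ?_⟩
  intro P ℓ S A T a hS1 hA hT ha0 ha1 ha
  have h1 := hC {q // q ∈ S} {p // p ∈ S.image Prod.fst} S.attach
    (fun q => ⟨q.1.1, Finset.mem_image_of_mem _ q.2⟩) (fun q => (q.1.2 : ℤ))
    (fun q => ((A q.1 : ℝ) : ℂ)) a ha0 ha1 (fun q _ => by exact_mod_cast hS1 q.1 q.2)
    (fun q _ q' _ h2 h3 => by
      have h4 : q.1.1 = q'.1.1 := congrArg Subtype.val h2
      have h5 : q.1.2 = q'.1.2 := by exact_mod_cast h3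
      exact Subtype.ext (Prod.ext h4 h5))
    (fun p => by
      have h2 := ha p.1 (S.filter fun q => q.1 = p.1) (Finset.filter_subset _ _)
        fun q hq => (Finset.mem_filter.1 hq).2
      refine le_trans (le_of_eq ?_) h2
      rw [Finset.sum_filter, Finset.sum_filter, ← Finset.sum_attach S]
      refine Finset.sum_congr rfl fun q _ => ?_
      have h3 : ‖((A q.1 : ℝ) : ℂ)‖ = A q.1 := by
        rw [Complex.norm_real, Real.norm_eq_abs, abs_of_nonneg (hA q.1 q.2)]
      simp only [Subtype.ext_iff, h3])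
  have h2 := time_low (P := {p // p ∈ S.image Prod.fst}) S.attach
    (fun q => ⟨q.1.1, Finset.mem_image_of_mem _ q.2⟩) (fun q => (q.1.2 : ℤ))
    (fun q => A q.1) (fun q _ => hA q.1 q.2) (fun p => ℓ p.1) r hT
  have e1 : ∀ u : ℝ, ∑ q ∈ S.attach,
      (((A q.1 : ℝ) : ℂ) * ex (u * (((q.1.2 : ℕ) : ℤ) * ℓ q.1.1))).re =
      ∑ q ∈ S, (((A q : ℝ) : ℂ) *
        Complex.exp (-((u * (q.2 * ℓ q.1) : ℝ) : ℂ) * Complex.I)).re := by
    intro u
    rw [← Finset.sum_attach S]
    refine Finset.sum_congr rfl fun q _ => ?_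
    unfold ex
    rw [Int.cast_natCast]
  simp_rw [e1] at h2
  have e2 : ∑ q ∈ S.attach, ‖((A q.1 : ℝ) : ℂ)‖ ^ 2 / 2 = ∑ q ∈ S, A q ^ 2 / 2 := by
    rw [← Finset.sum_attach S]
    refine Finset.sum_congr rfl fun q _ => ?_
    rw [Complex.norm_real, Real.norm_eq_abs, sq_abs]
  rw [e2] at h1
  have h3 := (abs_le.1 h1).1
  linarith

theorem tm_moments (r : ℕ) : ∃ C : ℝ, 0 ≤ C ∧ ∀ (P : Type) (ℓ : P → ℝ) (S : Finset (P × ℕ))
    (c : P × ℕ → ℂ) (M δ T a : ℝ), (∀ p, 0 ≤ ℓ p) → (∀ q ∈ S, 1 ≤ q.2) →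
    (∀ q ∈ S, q.2 * ℓ q.1 ≤ M) → 0 < δ → 0 < T → 0 ≤ a → a ≤ 1 →
    (∀ p, ∀ S' ⊆ S, (∀ q ∈ S', q.1 = p) → ∑ q ∈ S', ‖c q‖ ≤ a) →
    (∀ e : P →₀ ℤ, e ≠ 0 → e.support.card ≤ r → (∀ p, |(e p : ℝ)| * ℓ p ≤ r * M) →
      δ ≤ |e.sum fun p n => n * ℓ p|) →
    |tm T (fun u => (∑ q ∈ S, (c q *
        Complex.exp (-((u * (q.2 * ℓ q.1) : ℝ) : ℂ) * Complex.I)).re) ^ r) -
      gaussMom (∑ q ∈ S, ‖c q‖ ^ 2 / 2) r| ≤
      C * (1 + √(∑ q ∈ S, ‖c q‖ ^ 2 / 2)) ^ r * a + 8 * (∑ q ∈ S, ‖c q‖) ^ r / (T * δ) := by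
  classical
  obtain ⟨C, hC0, hC⟩ := model_moments r
  refine ⟨C, hC0, ?_⟩
  intro P ℓ S c M δ T a hℓ hS1 hSM hδ hT ha0 ha1 ha hsep
  have h0 := hC {q // q ∈ S} {p // p ∈ S.image Prod.fst} S.attach
    (fun q => ⟨q.1.1, Finset.mem_image_of_mem _ q.2⟩) (fun q => (q.1.2 : ℤ)) (fun q => c q.1)
    a ha0 ha1 (fun q _ => by exact_mod_cast hS1 q.1 q.2)
    (fun q _ q' _ h2 h3 => by
      have h4 : q.1.1 = q'.1.1 := congrArg Subtype.val h2
      have h5 : q.1.2 = q'.1.2 := by exact_mod_cast h3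
      exact Subtype.ext (Prod.ext h4 h5))
    (fun p => by
      have h2 := ha p.1 (S.filter fun q => q.1 = p.1) (Finset.filter_subset _ _)
        fun q hq => (Finset.mem_filter.1 hq).2
      refine le_trans (le_of_eq ?_) h2
      rw [Finset.sum_filter, Finset.sum_filter, ← Finset.sum_attach S]
      refine Finset.sum_congr rfl fun q _ => ?_
      simp only [Subtype.ext_iff])
  have h1 := time_torus_tm (P := {p // p ∈ S.image Prod.fst}) S.attach
    (fun q => ⟨q.1.1, Finset.mem_image_of_mem _ q.2⟩) (fun q => (q.1.2 : ℤ)) (fun q => c q.1)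
    (fun p => ℓ p.1) r hδ hT
    (fun f hf hex => by
      push Not at hex
      obtain ⟨p₀, hp₀⟩ := hex
      -- the integer combination
      have hM0 : 0 ≤ (r : ℝ) * M := by
        rcases Nat.eq_zero_or_pos r with h0 | h0
        · subst h0
          simp
        · have h2 := hSM (f ⟨0, h0⟩).1.1 (f ⟨0, h0⟩).1.2
          have h3 := hℓ (f ⟨0, h0⟩).1.1.1
          have h4 : 0 ≤ (((f ⟨0, h0⟩).1.1.2 : ℕ) : ℝ) * ℓ (f ⟨0, h0⟩).1.1.1 := by positivity
          have h5 : 0 ≤ M := h4.trans h2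
          positivity
      obtain ⟨e, he⟩ : ∃ e : P →₀ ℤ, e = ∑ t : Fin r, Finsupp.single (f t).1.1.1
        (sg (f t).2 * ((f t).1.1.2 : ℤ)) := ⟨_, rfl⟩
      have hep : ∀ p, e p = ∑ t, if (f t).1.1.1 = p then sg (f t).2 * ((f t).1.1.2 : ℤ) else 0 := by
        intro p
        rw [he, Finsupp.finsetSum_apply]
        refine Finset.sum_congr rfl fun t _ => ?_
        rw [Finsupp.single_apply]
      have he0 : e ≠ 0 := by
        intro h2
        apply hp₀
        have h3 : e p₀.1 = 0 := by rw [h2]; rfl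
        rw [hep] at h3
        unfold expo
        refine Eq.trans (Finset.sum_congr rfl fun t _ => ?_) h3
        simp only [Subtype.ext_iff]
      have hcard : e.support.card ≤ r := by
        have h2 : e.support ⊆ Finset.univ.image fun t : Fin r => (f t).1.1.1 := by
          intro p hp
          rw [Finsupp.mem_support_iff, hep] at hp
          obtain ⟨t, -, ht⟩ := Finset.exists_ne_zero_of_sum_ne_zero hp
          rw [Finset.mem_image]
          refine ⟨t, Finset.mem_univ _, ?_⟩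
          by_contra h3
          rw [if_neg h3] at ht
          exact ht rfl
        calc e.support.card ≤ (Finset.univ.image fun t : Fin r => (f t).1.1.1).card :=
              Finset.card_le_card h2
          _ ≤ (Finset.univ : Finset (Fin r)).card := Finset.card_image_le
          _ = r := by simp
      have hbd : ∀ p, |(e p : ℝ)| * ℓ p ≤ r * M := by
        intro p
        have h2 : |(e p : ℝ)| ≤ ∑ t : Fin r, if (f t).1.1.1 = p then (((f t).1.1.2 : ℕ) : ℝ)
            else 0 := by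
          rw [hep]
          push_cast
          refine (Finset.abs_sum_le_sum_abs _ _).trans (Finset.sum_le_sum fun t _ => ?_)
          split_ifs with h3
          · rw [abs_mul, Nat.abs_cast]
            have h4 : |((sg (f t).2 : ℤ) : ℝ)| = 1 := by
              unfold sg
              split_ifs <;> simp
            rw [h4, one_mul]
          · simp
        calc |(e p : ℝ)| * ℓ p ≤ (∑ t : Fin r, if (f t).1.1.1 = p then (((f t).1.1.2 : ℕ) : ℝ)
            else 0) * ℓ p := mul_le_mul_of_nonneg_right h2 (hℓ p)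
          _ = ∑ t : Fin r, (if (f t).1.1.1 = p then (((f t).1.1.2 : ℕ) : ℝ) else 0) * ℓ p :=
              Finset.sum_mul _ _ _
          _ ≤ ∑ _t : Fin r, M := by
              refine Finset.sum_le_sum fun t _ => ?_
              have h5 := hSM (f t).1.1 (f t).1.2
              split_ifs with h3
              · rw [← h3]
                exact h5
              · rw [zero_mul]
                have h6 := hℓ (f t).1.1.1
                exact le_trans (by positivity) h5
          _ = r * M := by simp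
      have h2 := hsep e he0 hcard hbd
      have h3 : (e.sum fun p n => (n : ℝ) * ℓ p) =
          ∑ t, (sg (f t).2 : ℝ) * ((((f t).1.1.2 : ℕ) : ℤ) * ℓ (f t).1.1.1) := by
        rw [he, ← Finsupp.sum_finsetSum_index]
        · refine Finset.sum_congr rfl fun t _ => ?_
          rw [Finsupp.sum_single_index (by simp)]
          push_cast
          ring
        · intro p
          simp
        · intro p m n
          push_cast
          ring
      rw [h3] at h2
      exact h2)
  have e1 : ∀ u : ℝ, ∑ q ∈ S.attach, (c q.1 * ex (u * (((q.1.2 : ℕ) : ℤ) * ℓ q.1.1))).re =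
      ∑ q ∈ S, (c q * Complex.exp (-((u * (q.2 * ℓ q.1) : ℝ) : ℂ) * Complex.I)).re := by
    intro u
    rw [← Finset.sum_attach S]
    refine Finset.sum_congr rfl fun q _ => ?_
    unfold ex
    rw [Int.cast_natCast]
  simp_rw [e1] at h1
  rw [Finset.sum_attach S fun q => ‖c q‖] at h1
  rw [Finset.sum_attach S fun q => ‖c q‖ ^ 2 / 2] at h0
  have h9 := abs_sub_le _ _ _ |>.trans (add_le_add h1 h0)
  linarith

end EM73
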