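import Pool.Agent.LibEM73.N3
import Pool.Agent.LibGWa.U5

/-! Row N4: the moments of the sum over the closed geodesics in the triangular mean. 50 min.
Plan. Both theorems follow the proof of `osc_moments` (LibGWa/U5): the set `Sf G (R L)`, the coefficients
`fun q => amp G a L q.1 (q.2 - 1)`, `a = C1 / L` (`amp_sum_le`), the identities `e1`, `e2`, `e3` there.
`osc_low_pos`: `amp G a L p k = ((4 / L * (len p / √tw) * (a _).re : ℝ) : ℂ)` (`hpos`), `A q = ` this real number `≥ 0`,
`‖amp‖ = A`; `tm_moments_low`; `Vr G a R L → vg a` (`Vr_tendsto`) gives `gaussMom (Vr ..) r → gaussMom (vg a) r`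
(`gaussMom_cont`) and `C (1 + √Vr)^r * C1 / L → 0` as `L → ∞`. No condition on `T` except `0 < T`.
`osc_moments_tm`: as `osc_moments` with `tm_moments` in place of `torus_moments` (`8` instead of `2`). -/

open MeasureTheory Set Filter Topology FG33 Mes
open scoped ContDiff

namespace EM73

open GWin

theorem osc_low_pos {G : Geo} {κ : ℝ} (h : Ok G κ) (hSR : SumRule G) {a : ℝ → ℂ} (ha : IsAmp a)
    (hpos : ∀ t, 0 ≤ (a t).re ∧ (a t).im = 0) {R : ℝ} (hR0 : 0 ≤ R)
    (hR : ∀ s, R ≤ |s| → a s = 0) (r : ℕ) {ε : ℝ} (hε : 0 < ε) :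
    ∃ L₀ : ℝ, ∀ L T : ℝ, L₀ ≤ L → 0 < T →
      gaussMom (vg a) r - ε ≤ tm T fun u => Osc G a R L u ^ r := by
  classical
  obtain ⟨C, hC0, hC⟩ := tm_moments_low r
  obtain ⟨A, hA⟩ : ∃ A, ∀ s, ‖a s‖ ≤ A := by
    obtain ⟨x, hx⟩ := ha.smooth.continuous.norm.exists_forall_ge_of_hasCompactSupport ha.supp.norm
    exact ⟨_, hx⟩
  obtain ⟨C1, hC1, h1⟩ := amp_sum_le h hA
  have hV : Tendsto (fun L => Vr G a R L) atTop (𝓝 (vg a)) :=
    Vr_tendsto h hSR (ha.smooth.of_le (by exact_mod_cast le_top)) hR0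
      (fun s hs => hR s (hs.trans (le_abs_self s))) hA
  have hG : Tendsto (fun L => gaussMom (Vr G a R L) r) atTop (𝓝 (gaussMom (vg a) r)) :=
    ((gaussMom_cont r).tendsto _).comp hV
  have hE1 : Tendsto (fun L => C * (1 + √(Vr G a R L)) ^ r * (C1 / L)) atTop (𝓝 0) := by
    have h3 : Tendsto (fun L : ℝ => C1 / L) atTop (𝓝 0) := tendsto_const_nhds.div_atTop tendsto_id
    have h5 : Tendsto (fun L => √(Vr G a R L)) atTop (𝓝 (√(vg a))) :=
      (Real.continuous_sqrt.tendsto _).comp hV
    have h4 := (((h5.const_add 1).pow r).const_mul C).mul h3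
    simpa using h4
  have hD := hG.sub hE1
  rw [sub_zero] at hD
  have hev := (hD.eventually (lt_mem_nhds (show gaussMom (vg a) r - ε < gaussMom (vg a) r by
    linarith))).and (eventually_ge_atTop (max 1 C1))
  obtain ⟨L₀, hL₀⟩ := eventually_atTop.1 hev
  refine ⟨L₀, fun L T hL hT => ?_⟩
  obtain ⟨h2, h3⟩ := hL₀ L hL
  have hL1 : 1 ≤ L := (le_max_left _ _).trans h3
  have hL2 : C1 ≤ L := (le_max_right _ _).trans h3
  have hL0 : 0 < L := by linarith
  have hz : ∀ (p : G.P) (k : ℕ), R * L < ((k : ℝ) + 1) * G.len p → amp G a L p k = 0 := by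
    intro p k hk
    unfold GWin.amp
    rw [hR, mul_zero]
    have h4 := h.pos p
    rw [abs_of_nonneg (by positivity), le_div_iff₀ hL0]
    exact hk.le
  have hreal : ∀ (p : G.P) (k : ℕ), ((‖amp G a L p k‖ : ℝ) : ℂ) = amp G a L p k := by
    intro p k
    obtain ⟨h4, h5⟩ := hpos (((k : ℝ) + 1) * G.len p / L)
    have h6 : a (((k : ℝ) + 1) * G.len p / L) =
        (((a (((k : ℝ) + 1) * G.len p / L)).re : ℝ) : ℂ) := by
      refine Complex.ext ?_ ?_
      · rw [Complex.ofReal_re]
      · rw [Complex.ofReal_im, h5]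
    have h7 := h.pos p
    have h8 : amp G a L p k = ((4 / L * (G.len p / √(G.tw p (k + 1))) *
        (a (((k : ℝ) + 1) * G.len p / L)).re : ℝ) : ℂ) := by
      unfold GWin.amp
      rw [Complex.ofReal_mul (4 / L * (G.len p / √(G.tw p (k + 1)))), ← h6]
    rw [h8, Complex.norm_real, Real.norm_eq_abs, abs_of_nonneg]
    positivity
  have h4 := hC G.P G.len (Sf G (R * L)) (fun q => ‖amp G a L q.1 (q.2 - 1)‖) T (C1 / L)
    (fun q hq => (mem_Sf hq).2.1) (fun q _ => norm_nonneg _) hT (by positivity)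
    (by rw [div_le_one hL0]; exact hL2)
    (by
      intro p S' hS' hp
      have h4 : ∑ q ∈ S', ‖amp G a L q.1 (q.2 - 1)‖
          = ∑ k ∈ S'.image (fun q => q.2 - 1), ‖amp G a L p k‖ := by
        rw [Finset.sum_image]
        · refine Finset.sum_congr rfl fun q hq => ?_
          rw [hp q hq]
        · intro q hq q' hq' he
          have h5 := (mem_Sf (hS' hq)).2.1
          have h6 := (mem_Sf (hS' hq')).2.1
          dsimp only at he
          exact Prod.ext ((hp q hq).trans (hp q' hq').symm) (by omega)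
      rw [h4]
      refine (Finset.sum_le_sum_of_subset_of_nonneg (t := Finset.range (KK G (R * L))) ?_
        fun _ _ _ => norm_nonneg _).trans (h1 L p _ hL0)
      intro k hk
      rw [Finset.mem_image] at hk
      obtain ⟨q, hq, rfl⟩ := hk
      have h5 := (mem_Sf (hS' hq)).2.2.1
      have h6 := (mem_Sf (hS' hq)).2.1
      rw [Finset.mem_range]
      omega)
  have e1 : ∀ u : ℝ, (∑ q ∈ Sf G (R * L), (((‖amp G a L q.1 (q.2 - 1)‖ : ℝ) : ℂ) *
      Complex.exp (-((u * (q.2 * G.len q.1) : ℝ) : ℂ) * Complex.I)).re)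
        = Osc G a R L u := by
    intro u
    simp only [hreal]
    refine Sf_sum G (R * L) (fun p k => (amp G a L p k * Complex.exp
      (-((u * (((k : ℝ) + 1) * G.len p) : ℝ) : ℂ) * Complex.I)).re) ?_ _ ?_
    · intro p k hk
      rw [hz p k hk, zero_mul, Complex.zero_re]
    · intro p k
      dsimp only
      rw [Nat.add_sub_cancel]
      push_cast
      rfl
  have e2 : (∑ q ∈ Sf G (R * L), ‖amp G a L q.1 (q.2 - 1)‖ ^ 2 / 2) = Vr G a R L := by
    unfold Vr
    rw [Finset.mul_sum]
    simp_rw [Finset.mul_sum]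
    refine Sf_sum G (R * L) (fun p k => 1 / 2 * ‖amp G a L p k‖ ^ 2) ?_ _ ?_
    · intro p k hk
      rw [hz p k hk]
      simp
    · intro p k
      dsimp only
      rw [Nat.add_sub_cancel]
      ring
  simp only [e1, e2] at h4
  linarith

theorem osc_moments_tm {G : Geo} {κ : ℝ} (h : Ok G κ) (hSR : SumRule G) {L : ℝ → ℝ}
    (hL : Tendsto L atTop atTop) (hL' : Tendsto (fun T => L T / Real.log T) atTop (𝓝 0))
    (hS : Sep G L) {a : ℝ → ℂ} (ha : IsAmp a) {R : ℝ} (hR0 : 0 ≤ R)
    (hR : ∀ s, R ≤ |s| → a s = 0) (r : ℕ) :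
    Tendsto (fun T => tm T fun u => Osc G a R (L T) u ^ r) atTop
      (𝓝 (gaussMom (vg a) r)) := by
  classical
  obtain ⟨C, hC0, hC⟩ := tm_moments r
  obtain ⟨A, hA⟩ : ∃ A, ∀ s, ‖a s‖ ≤ A := by
    obtain ⟨x, hx⟩ := ha.smooth.continuous.norm.exists_forall_ge_of_hasCompactSupport ha.supp.norm
    exact ⟨_, hx⟩
  obtain ⟨C1, hC1, h1⟩ := amp_sum_le h hA
  obtain ⟨C2, hC2, h2⟩ := amp_total_le h hA hR0
  have hV : Tendsto (fun T => Vr G a R (L T)) atTop (𝓝 (vg a)) :=
    (Vr_tendsto h hSR (ha.smooth.of_le (by exact_mod_cast le_top)) hR0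
      (fun s hs => hR s (hs.trans (le_abs_self s))) hA).comp hL
  have hG : Tendsto (fun T => gaussMom (Vr G a R (L T)) r) atTop (𝓝 (gaussMom (vg a) r)) :=
    ((gaussMom_cont r).tendsto _).comp hV
  -- the error
  have hE1 : Tendsto (fun T => C * (1 + √(Vr G a R (L T))) ^ r * (C1 / L T)) atTop (𝓝 0) := by
    have h3 : Tendsto (fun T => C1 / L T) atTop (𝓝 0) := tendsto_const_nhds.div_atTop hL
    have h5 : Tendsto (fun T => √(Vr G a R (L T))) atTop (𝓝 (√(vg a))) :=
      (Real.continuous_sqrt.tendsto _).comp hV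
    have h4 := (((h5.const_add 1).pow r).const_mul C).mul h3
    simpa using h4
  have hE2 : Tendsto (fun T : ℝ => 8 * T ^ (-(1 / 4) : ℝ)) atTop (𝓝 0) := by
    have := (tendsto_rpow_neg_atTop (show (0 : ℝ) < 1 / 4 by norm_num)).const_mul 8
    simpa using this
  have hE := hE1.add hE2
  rw [add_zero] at hE
  -- eventually
  have hev : ∀ᶠ T in atTop, |(tm T fun u => Osc G a R (L T) u ^ r)
      - gaussMom (Vr G a R (L T)) r| ≤ C * (1 + √(Vr G a R (L T))) ^ r * (C1 / L T)
        + 8 * T ^ (-(1 / 4) : ℝ) := by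
    have hsmall : ∀ᶠ T : ℝ in atTop, |L T / Real.log T| ≤ 1 / (4 * (r * C2 + 1)) := by
      have := hL'.abs
      rw [abs_zero] at this
      exact (this.eventually (gt_mem_nhds (by positivity))).mono fun _ h => h.le
    filter_upwards [hsmall, hL.eventually (eventually_ge_atTop (max 1 C1)), eventually_gt_atTop 1,
      sep_apply h hL hS r hR0] with T hT1 hT2 hT3 hT4
    have hL1 : 1 ≤ L T := (le_max_left _ _).trans hT2
    have hL2 : C1 ≤ L T := (le_max_right _ _).trans hT2
    have hL0 : 0 < L T := by linarith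
    have hT0 : 0 < T := by linarith
    have hlog : 0 < Real.log T := Real.log_pos hT3
    have hz : ∀ (p : G.P) (k : ℕ), R * L T < ((k : ℝ) + 1) * G.len p → amp G a (L T) p k = 0 := by
      intro p k hk
      unfold GWin.amp
      rw [hR, mul_zero]
      have h4 := h.pos p
      rw [abs_of_nonneg (by positivity), le_div_iff₀ hL0]
      exact hk.le
    have h3 := hC G.P G.len (Sf G (R * L T)) (fun q => amp G a (L T) q.1 (q.2 - 1)) (R * L T)
      (T ^ (-(1 / 2) : ℝ)) T (C1 / L T) (fun p => (h.pos p).le) (fun q hq => (mem_Sf hq).2.1)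
      (fun q hq => (mem_Sf hq).2.2.2) (by positivity) hT0 (by positivity)
      (by rw [div_le_one hL0]; exact hL2)
      (by
        intro p S' hS' hp
        have h4 : ∑ q ∈ S', ‖amp G a (L T) q.1 (q.2 - 1)‖
            = ∑ k ∈ S'.image (fun q => q.2 - 1), ‖amp G a (L T) p k‖ := by
          rw [Finset.sum_image]
          · refine Finset.sum_congr rfl fun q hq => ?_
            rw [hp q hq]
          · intro q hq q' hq' he
            have h5 := (mem_Sf (hS' hq)).2.1
            have h6 := (mem_Sf (hS' hq')).2.1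
            dsimp only at he
            exact Prod.ext ((hp q hq).trans (hp q' hq').symm) (by omega)
        rw [h4]
        refine (Finset.sum_le_sum_of_subset_of_nonneg (t := Finset.range (KK G (R * L T))) ?_
          fun _ _ _ => norm_nonneg _).trans (h1 (L T) p _ hL0)
        intro k hk
        rw [Finset.mem_image] at hk
        obtain ⟨q, hq, rfl⟩ := hk
        have h5 := (mem_Sf (hS' hq)).2.2.1
        have h6 := (mem_Sf (hS' hq)).2.1
        rw [Finset.mem_range]
        omega) hT4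
    have e1 : ∀ u : ℝ, (∑ q ∈ Sf G (R * L T), (amp G a (L T) q.1 (q.2 - 1) *
        Complex.exp (-((u * (q.2 * G.len q.1) : ℝ) : ℂ) * Complex.I)).re)
          = Osc G a R (L T) u := by
      intro u
      refine Sf_sum G (R * L T) (fun p k => (amp G a (L T) p k * Complex.exp
        (-((u * (((k : ℝ) + 1) * G.len p) : ℝ) : ℂ) * Complex.I)).re) ?_ _ ?_
      · intro p k hk
        rw [hz p k hk, zero_mul, Complex.zero_re]
      · intro p k
        dsimp only
        rw [Nat.add_sub_cancel]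
        push_cast
        rfl
    have e2 : (∑ q ∈ Sf G (R * L T), ‖amp G a (L T) q.1 (q.2 - 1)‖ ^ 2 / 2) = Vr G a R (L T) := by
      unfold Vr
      rw [Finset.mul_sum]
      simp_rw [Finset.mul_sum]
      refine Sf_sum G (R * L T) (fun p k => 1 / 2 * ‖amp G a (L T) p k‖ ^ 2) ?_ _ ?_
      · intro p k hk
        rw [hz p k hk]
        simp
      · intro p k
        dsimp only
        rw [Nat.add_sub_cancel]
        ring
    have e3 : (∑ q ∈ Sf G (R * L T), ‖amp G a (L T) q.1 (q.2 - 1)‖) = ∑ p ∈ ball G (R * L T),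
        ∑ k ∈ Finset.range (KK G (R * L T)), ‖amp G a (L T) p k‖ := by
      refine Sf_sum G (R * L T) (fun p k => ‖amp G a (L T) p k‖) ?_ _ ?_
      · intro p k hk
        rw [hz p k hk]
        simp
      · intro p k
        dsimp only
        rw [Nat.add_sub_cancel]
    simp only [e1, e2, e3] at h3
    refine h3.trans ?_
    have h5 := h2 (L T) (KK G (R * L T)) hL1
    have h6 : (∑ p ∈ ball G (R * L T), ∑ k ∈ Finset.range (KK G (R * L T)),
        ‖amp G a (L T) p k‖) ^ r / (T * T ^ (-(1 / 2) : ℝ)) ≤ T ^ (-(1 / 4) : ℝ) := by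
      have h7 : T * T ^ (-(1 / 2) : ℝ) = T ^ (1 / 2 : ℝ) := by
        nth_rewrite 1 [← Real.rpow_one T]
        rw [← Real.rpow_add hT0]
        norm_num
      have h8 : (∑ p ∈ ball G (R * L T), ∑ k ∈ Finset.range (KK G (R * L T)),
          ‖amp G a (L T) p k‖) ^ r ≤ T ^ (1 / 4 : ℝ) := by
        have h9 : 0 ≤ ∑ p ∈ ball G (R * L T), ∑ k ∈ Finset.range (KK G (R * L T)),
            ‖amp G a (L T) p k‖ := Finset.sum_nonneg fun p _ => Finset.sum_nonneg fun k _ => norm_nonneg _
        refine (pow_le_pow_left₀ h9 h5 r).trans ?_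
        rw [← Real.exp_nat_mul, Real.rpow_def_of_pos hT0, Real.exp_le_exp]
        rw [abs_of_pos (by positivity), div_le_iff₀ hlog] at hT1
        have h10 : (r * C2 + 1) * L T ≤ Real.log T * (1 / 4) := by
          have h11 : 0 < (r : ℝ) * C2 + 1 := by positivity
          calc (r * C2 + 1) * L T ≤ (r * C2 + 1) * (1 / (4 * (r * C2 + 1)) * Real.log T) := by
                gcongr
            _ = _ := by field_simp
        nlinarith
      rw [h7, div_le_iff₀ (by positivity), ← Real.rpow_add hT0]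
      refine h8.trans (le_of_eq ?_)
      norm_num
    rw [mul_div_assoc]
    exact add_le_add le_rfl (mul_le_mul_of_nonneg_left h6 (by norm_num))
  have h0 : Tendsto (fun T => (tm T fun u => Osc G a R (L T) u ^ r)
      - gaussMom (Vr G a R (L T)) r) atTop (𝓝 0) :=
    squeeze_zero_norm' (hev.mono fun _ h => h) hE
  have h3 := h0.add hG
  simpa using h3

end EM73
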