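import Pool.Agent.LibEM73.N1
import Pool.Agent.LibEM73.E1

/-! Row N5 (only Mathlib): the triangular mean of the square of a trigonometric sum with positive weights, from
below, without any condition on the frequencies. 45 min.
Plan. `Re z * Re w = (1/2) Re (z w) + (1/2) Re (z conj w)`, so `X u ^ 2` is the sum over `(i, j)` of
`(1/2) w_i w_j (Re (α_i conj α_j) cos (u (ν_i - ν_j)) + Im (α_i conj α_j) sin (u (ν_i - ν_j)))` and
`(1/2) w_i w_j (Re (α_i α_j) cos (u (ν_i + ν_j)) + Im (α_i α_j) sin (u (ν_i + ν_j)))`; apply `tm` (`tm_sum`, `tm_mul`).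
Let `η = T ^ (-1/2)`. The sum part: `ν_i + ν_j ≥ 2 l0`, `tm_cos_le`, `tm_sin_le`: at most `A^2 (C / T)`.
The difference part: for `i = j` it is exactly `‖w_i α_i‖^2`. For `ω = ν_i - ν_j` with `|ω| < η` (including `ω = 0`,
`i ≠ j`): `Re (α_i conj α_j) ≥ ‖α_i‖^2 - A K η ≥ - A K η` and `|Im (α_i conj α_j)| = |Im ((α_i - α_j) conj α_j)| ≤ A K η`,
with `0 ≤ tm cos ≤ 1`, `|tm sin| ≤ 1`. For `|ω| ≥ η`: `|tm cos| ≤ 4 / (T η)^2 = 4 / T ≤ 4 η`, `|tm sin| ≤ 4 / (T η) = 4 η`. -/

open MeasureTheory Set Filter Topology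

namespace EM73

private theorem N5_add {T : ℝ} (f g : ℝ → ℝ) (hf : Continuous f) (hg : Continuous g) :
    tm T (fun u => f u + g u) = tm T f + tm T g := by
  have h := tm_sum (Finset.univ : Finset (Fin 2)) (fun i => if i = 0 then f else g)
    (by intro i _; by_cases h : i = 0 <;> simp [h, hf, hg]) T
  simpa [Fin.sum_univ_two] using h

private theorem N5_cc (T a b ω : ℝ) :
    tm T (fun u => a * Real.cos (u * ω) + b * Real.sin (u * ω)) =
      a * tm T (fun u => Real.cos (u * ω)) + b * tm T (fun u => Real.sin (u * ω)) := by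
  rw [N5_add (fun u => a * Real.cos (u * ω)) (fun u => b * Real.sin (u * ω)) (by fun_prop)
    (by fun_prop), tm_mul, tm_mul]

/-- the pair identity -/
private theorem N5_pair (w₁ w₂ : ℝ) (a b : ℂ) (x y u : ℝ) :
    (((w₁ : ℂ) * a) * Complex.exp (-((u * x : ℝ) : ℂ) * Complex.I)).re *
      (((w₂ : ℂ) * b) * Complex.exp (-((u * y : ℝ) : ℂ) * Complex.I)).re =
    (w₁ * w₂ / 2) * (((a * (starRingEnd ℂ) b).re * Real.cos (u * (x - y)) +
      (a * (starRingEnd ℂ) b).im * Real.sin (u * (x - y))) +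
      ((a * b).re * Real.cos (u * (x + y)) + (a * b).im * Real.sin (u * (x + y)))) := by
  have h1 : ∀ t : ℝ, (Complex.exp (-((t : ℝ) : ℂ) * Complex.I)).re = Real.cos t := by
    intro t
    rw [← Complex.ofReal_neg, Complex.exp_ofReal_mul_I_re, Real.cos_neg]
  have h2 : ∀ t : ℝ, (Complex.exp (-((t : ℝ) : ℂ) * Complex.I)).im = - Real.sin t := by
    intro t
    rw [← Complex.ofReal_neg, Complex.exp_ofReal_mul_I_im, Real.sin_neg]
  simp only [Complex.mul_re, Complex.mul_im, Complex.ofReal_re, Complex.ofReal_im, h1, h2,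
    Complex.conj_re, Complex.conj_im]
  rw [mul_sub u x y, mul_add u x y, Real.cos_sub, Real.sin_sub, Real.cos_add, Real.sin_add]
  ring

theorem tri_low {K A l0 : ℝ} (hK : 0 ≤ K) (hl0 : 0 < l0) : ∃ C : ℝ, 0 ≤ C ∧
    ∀ (ι : Type) (s : Finset ι) (w : ι → ℝ) (α : ℝ → ℂ) (ν : ι → ℝ), (∀ i ∈ s, 0 ≤ w i) →
      (∀ x y, ‖α x - α y‖ ≤ K * |x - y|) → (∀ x, ‖α x‖ ≤ A) → (∀ i ∈ s, l0 ≤ ν i) →
      ∀ T : ℝ, 1 ≤ T →
        1 / 2 * ∑ i ∈ s, ‖(w i : ℂ) * α (ν i)‖ ^ 2 - C * (∑ i ∈ s, w i) ^ 2 * T ^ (-(1 / 2) : ℝ) ≤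
          tm T fun u => tri s (fun i => (w i : ℂ) * α (ν i)) ν u ^ 2 := by
  classical
  by_cases hA0 : A < 0
  · refine ⟨0, le_refl _, ?_⟩
    intro ι s w α ν _ _ hA
    exact absurd (lt_of_le_of_lt (hA 0) hA0) (not_lt.2 (norm_nonneg _))
  push Not at hA0
  refine ⟨A ^ 2 * (4 / l0 ^ 2 + 4 / l0) + 8 * A ^ 2 + 2 * A * K, by positivity, ?_⟩
  intro ι s w α ν hw hα hA hν T hT
  have hT0 : 0 < T := by linarith
  set η : ℝ := T ^ (-(1 / 2) : ℝ) with hη
  have hη0 : 0 < η := Real.rpow_pos_of_pos hT0 _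
  have hηsq : η ^ 2 = T⁻¹ := by
    rw [hη, ← Real.rpow_natCast, ← Real.rpow_mul hT0.le]
    norm_num [Real.rpow_neg_one]
  have hTη : T * η ^ 2 = 1 := by
    rw [hηsq]
    exact mul_inv_cancel₀ hT0.ne'
  have hη1 : η ≤ 1 := by
    rw [hη]
    exact Real.rpow_le_one_of_one_le_of_nonpos hT (by norm_num)
  have hTinv : 1 / T ≤ η := by
    rw [one_div, ← hηsq]
    nlinarith
  -- the expansion
  have hexp : ∀ u : ℝ, tri s (fun i => (w i : ℂ) * α (ν i)) ν u ^ 2 =
      ∑ p ∈ s ×ˢ s, (w p.1 * w p.2 / 2) *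
        (((α (ν p.1) * (starRingEnd ℂ) (α (ν p.2))).re * Real.cos (u * (ν p.1 - ν p.2)) +
          (α (ν p.1) * (starRingEnd ℂ) (α (ν p.2))).im * Real.sin (u * (ν p.1 - ν p.2))) +
        ((α (ν p.1) * α (ν p.2)).re * Real.cos (u * (ν p.1 + ν p.2)) +
          (α (ν p.1) * α (ν p.2)).im * Real.sin (u * (ν p.1 + ν p.2)))) := by
    intro u
    rw [Finset.sum_product]
    unfold tri
    rw [sq, Finset.sum_mul_sum]
    refine Finset.sum_congr rfl fun i _ => Finset.sum_congr rfl fun j _ => ?_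
    exact N5_pair _ _ _ _ _ _ _
  have htm : tm T (fun u => tri s (fun i => (w i : ℂ) * α (ν i)) ν u ^ 2) =
      ∑ p ∈ s ×ˢ s, (w p.1 * w p.2 / 2) *
        (((α (ν p.1) * (starRingEnd ℂ) (α (ν p.2))).re *
            tm T (fun u => Real.cos (u * (ν p.1 - ν p.2))) +
          (α (ν p.1) * (starRingEnd ℂ) (α (ν p.2))).im *
            tm T (fun u => Real.sin (u * (ν p.1 - ν p.2)))) +
        ((α (ν p.1) * α (ν p.2)).re * tm T (fun u => Real.cos (u * (ν p.1 + ν p.2))) +
          (α (ν p.1) * α (ν p.2)).im * tm T (fun u => Real.sin (u * (ν p.1 + ν p.2))))) := by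
    have h1 : (fun u => tri s (fun i => (w i : ℂ) * α (ν i)) ν u ^ 2) = fun u => _ := funext hexp
    rw [h1, tm_sum _ _ (by intro p _; fun_prop)]
    refine Finset.sum_congr rfl fun p _ => ?_
    rw [tm_mul, N5_add _ _ (by fun_prop) (by fun_prop), N5_cc, N5_cc]
  rw [htm]
  -- the lower bound of each term
  have hcos1 : ∀ ω : ℝ, 0 ≤ tm T (fun u => Real.cos (u * ω)) ∧
      tm T (fun u => Real.cos (u * ω)) ≤ 1 := by
    intro ω
    refine ⟨tm_cos_nonneg hT0 ω, ?_⟩
    exact (le_abs_self _).trans (tm_abs_le hT0 (by fun_prop) fun u _ _ => Real.abs_cos_le_one _)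
  have hsin1 : ∀ ω : ℝ, |tm T (fun u => Real.sin (u * ω))| ≤ 1 := by
    intro ω
    exact tm_abs_le hT0 (by fun_prop) fun u _ _ => Real.abs_sin_le_one _
  have hbd : ∀ x y : ℝ, ‖α x * α y‖ ≤ A ^ 2 := by
    intro x y
    rw [norm_mul, sq]
    exact mul_le_mul (hA x) (hA y) (norm_nonneg _) hA0
  have hbd' : ∀ x y : ℝ, ‖α x * (starRingEnd ℂ) (α y)‖ ≤ A ^ 2 := by
    intro x y
    rw [norm_mul, RCLike.norm_conj, sq]
    exact mul_le_mul (hA x) (hA y) (norm_nonneg _) hA0
  -- the sum part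
  have hsum : ∀ x y : ℝ, l0 ≤ x → l0 ≤ y →
      -(A ^ 2 * (4 / l0 ^ 2 + 4 / l0) * η) ≤ (α x * α y).re * tm T (fun u => Real.cos (u * (x + y)))
        + (α x * α y).im * tm T (fun u => Real.sin (u * (x + y))) := by
    intro x y hx hy
    have hω : l0 ≤ x + y := by linarith
    have hω0 : 0 < x + y := by linarith
    have hTω : 0 < T * (x + y) := by positivity
    have c1 : tm T (fun u => Real.cos (u * (x + y))) ≤ 4 / l0 ^ 2 * η := by
      refine (tm_cos_le hT0 hω0.ne').trans ?_
      have e1 : 4 / (T * (x + y)) ^ 2 ≤ 4 / (T * l0 ^ 2) := by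
        apply div_le_div_of_nonneg_left (by norm_num) (by positivity)
        rw [mul_pow]
        have : l0 ^ 2 ≤ (x + y) ^ 2 := by gcongr
        have g1 : T ≤ T ^ 2 := by nlinarith
        calc T * l0 ^ 2 ≤ T ^ 2 * l0 ^ 2 := mul_le_mul_of_nonneg_right g1 (sq_nonneg _)
          _ ≤ T ^ 2 * (x + y) ^ 2 := mul_le_mul_of_nonneg_left this (sq_nonneg _)
      have e2 : 4 / (T * l0 ^ 2) = 4 / l0 ^ 2 * (1 / T) := by
        field_simp
      rw [e2] at e1
      refine e1.trans ?_
      gcongr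
    have c2 : |tm T (fun u => Real.sin (u * (x + y)))| ≤ 4 / l0 * η := by
      refine (tm_sin_le hT0 hω0.ne').trans ?_
      rw [abs_of_pos hω0]
      have e1 : 4 / (T * (x + y)) ≤ 4 / (T * l0) := by
        apply div_le_div_of_nonneg_left (by norm_num) (by positivity)
        gcongr
      have e2 : 4 / (T * l0) = 4 / l0 * (1 / T) := by
        field_simp
      rw [e2] at e1
      refine e1.trans ?_
      gcongr
    have b1 : |(α x * α y).re| ≤ A ^ 2 := (Complex.abs_re_le_norm _).trans (hbd x y)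
    have b2 : |(α x * α y).im| ≤ A ^ 2 := (Complex.abs_im_le_norm _).trans (hbd x y)
    have d1 : |(α x * α y).re * tm T (fun u => Real.cos (u * (x + y)))| ≤
        A ^ 2 * (4 / l0 ^ 2 * η) := by
      rw [abs_mul]
      refine mul_le_mul b1 ?_ (abs_nonneg _) (by positivity)
      rw [abs_of_nonneg (hcos1 _).1]
      exact c1
    have d2 : |(α x * α y).im * tm T (fun u => Real.sin (u * (x + y)))| ≤
        A ^ 2 * (4 / l0 * η) := by
      rw [abs_mul]
      exact mul_le_mul b2 c2 (abs_nonneg _) (by positivity)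
    have f1 := (abs_le.1 d1).1
    have f2 := (abs_le.1 d2).1
    nlinarith
  -- the difference part
  have hdiff : ∀ x y : ℝ,
      -((8 * A ^ 2 + 2 * A * K) * η) ≤ (α x * (starRingEnd ℂ) (α y)).re *
          tm T (fun u => Real.cos (u * (x - y)))
        + (α x * (starRingEnd ℂ) (α y)).im * tm T (fun u => Real.sin (u * (x - y))) := by
    intro x y
    have b1 : |(α x * (starRingEnd ℂ) (α y)).re| ≤ A ^ 2 :=
      (Complex.abs_re_le_norm _).trans (hbd' x y)
    have b2 : |(α x * (starRingEnd ℂ) (α y)).im| ≤ A ^ 2 :=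
      (Complex.abs_im_le_norm _).trans (hbd' x y)
    rcases lt_or_ge |x - y| η with h | h
    · -- small
      have e0 : α x * (starRingEnd ℂ) (α y) =
          (α x - α y) * (starRingEnd ℂ) (α y) + ((‖α y‖ ^ 2 : ℝ) : ℂ) := by
        rw [sub_mul, Complex.mul_conj, Complex.normSq_eq_norm_sq]
        ring
      have e1 : ‖(α x - α y) * (starRingEnd ℂ) (α y)‖ ≤ A * K * η := by
        rw [norm_mul, RCLike.norm_conj]
        have g1 : ‖α x - α y‖ ≤ K * η := (hα x y).trans (by gcongr)
        calc ‖α x - α y‖ * ‖α y‖ ≤ K * η * A := mul_le_mul g1 (hA y) (norm_nonneg _) (by positivity)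
          _ = A * K * η := by ring
      have e2 : -(A * K * η) ≤ (α x * (starRingEnd ℂ) (α y)).re := by
        rw [e0, Complex.add_re, Complex.ofReal_re]
        have g1 := (abs_le.1 ((Complex.abs_re_le_norm _).trans e1)).1
        have g2 : 0 ≤ ‖α y‖ ^ 2 := by positivity
        linarith
      have e3 : |(α x * (starRingEnd ℂ) (α y)).im| ≤ A * K * η := by
        rw [e0, Complex.add_im, Complex.ofReal_im, add_zero]
        exact (Complex.abs_im_le_norm _).trans e1
      have hc := hcos1 (x - y)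
      have hs := hsin1 (x - y)
      have f1 : -(A * K * η) ≤ (α x * (starRingEnd ℂ) (α y)).re *
          tm T (fun u => Real.cos (u * (x - y))) := by
        have hAK : 0 ≤ A * K * η := by positivity
        rcases le_or_gt 0 (α x * (starRingEnd ℂ) (α y)).re with g | g
        · have := mul_nonneg g hc.1
          linarith
        · have : (α x * (starRingEnd ℂ) (α y)).re * 1 ≤ (α x * (starRingEnd ℂ) (α y)).re *
            tm T (fun u => Real.cos (u * (x - y))) := mul_le_mul_of_nonpos_left hc.2 g.le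
          linarith
      have f2 : |(α x * (starRingEnd ℂ) (α y)).im * tm T (fun u => Real.sin (u * (x - y)))| ≤
          A * K * η * 1 := by
        rw [abs_mul]
        exact mul_le_mul e3 hs (abs_nonneg _) (by positivity)
      have f3 := (abs_le.1 f2).1
      have f4 : 0 ≤ 8 * A ^ 2 * η := by positivity
      nlinarith
    · -- large
      have hxy : x - y ≠ 0 := by
        intro h0
        rw [h0, abs_zero] at h
        linarith
      have c1 : |tm T (fun u => Real.cos (u * (x - y)))| ≤ 4 * η := by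
        rw [abs_of_nonneg (hcos1 _).1]
        refine (tm_cos_le hT0 hxy).trans ?_
        have e1 : T ≤ (T * (x - y)) ^ 2 := by
          rw [mul_pow, ← sq_abs (x - y)]
          have : η ^ 2 ≤ |x - y| ^ 2 := by gcongr
          have h3 : T ^ 2 * η ^ 2 ≤ T ^ 2 * |x - y| ^ 2 := by gcongr
          have h4 : T ^ 2 * η ^ 2 = T := by
            rw [sq T, mul_assoc, hTη, mul_one]
          linarith
        calc 4 / (T * (x - y)) ^ 2 ≤ 4 / T := div_le_div_of_nonneg_left (by norm_num) hT0 e1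
          _ = 4 * (1 / T) := by ring
          _ ≤ 4 * η := by gcongr
      have c2 : |tm T (fun u => Real.sin (u * (x - y)))| ≤ 4 * η := by
        refine (tm_sin_le hT0 hxy).trans ?_
        have e1 : T * η ≤ T * |x - y| := by gcongr
        have e2 : 4 / (T * |x - y|) ≤ 4 / (T * η) :=
          div_le_div_of_nonneg_left (by norm_num) (by positivity) e1
        have e3 : 4 / (T * η) = 4 * η := by
          rw [div_eq_iff (by positivity)]
          calc (4 : ℝ) = 4 * (T * η ^ 2) := by rw [hTη, mul_one]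
            _ = 4 * η * (T * η) := by ring
        linarith
      have f1 : |(α x * (starRingEnd ℂ) (α y)).re * tm T (fun u => Real.cos (u * (x - y)))| ≤
          A ^ 2 * (4 * η) := by
        rw [abs_mul]
        exact mul_le_mul b1 c1 (abs_nonneg _) (by positivity)
      have f2 : |(α x * (starRingEnd ℂ) (α y)).im * tm T (fun u => Real.sin (u * (x - y)))| ≤
          A ^ 2 * (4 * η) := by
        rw [abs_mul]
        exact mul_le_mul b2 c2 (abs_nonneg _) (by positivity)
      have g1 := (abs_le.1 f1).1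
      have g2 := (abs_le.1 f2).1
      have g3 : 0 ≤ 2 * A * K * η := by positivity
      nlinarith
  -- each term
  set C : ℝ := A ^ 2 * (4 / l0 ^ 2 + 4 / l0) + 8 * A ^ 2 + 2 * A * K with hC
  have hC0 : 0 ≤ C := by positivity
  have hterm : ∀ p ∈ s ×ˢ s, (if p.1 = p.2 then 1 / 2 * ‖(w p.1 : ℂ) * α (ν p.1)‖ ^ 2 else 0) -
      C * (w p.1 * w p.2) * η ≤ (w p.1 * w p.2 / 2) *
        (((α (ν p.1) * (starRingEnd ℂ) (α (ν p.2))).re *
            tm T (fun u => Real.cos (u * (ν p.1 - ν p.2))) +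
          (α (ν p.1) * (starRingEnd ℂ) (α (ν p.2))).im *
            tm T (fun u => Real.sin (u * (ν p.1 - ν p.2)))) +
        ((α (ν p.1) * α (ν p.2)).re * tm T (fun u => Real.cos (u * (ν p.1 + ν p.2))) +
          (α (ν p.1) * α (ν p.2)).im * tm T (fun u => Real.sin (u * (ν p.1 + ν p.2))))) := by
    rintro ⟨i, j⟩ hp
    rw [Finset.mem_product] at hp
    obtain ⟨hi, hj⟩ := hp
    simp only at hi hj ⊢
    have hwi := hw i hi
    have hwj := hw j hj
    have hww : 0 ≤ w i * w j := mul_nonneg hwi hwj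
    have s1 := hsum (ν i) (ν j) (hν i hi) (hν j hj)
    by_cases hij : i = j
    · subst hij
      rw [if_pos rfl, sub_self]
      have t1 : tm T (fun u => Real.cos (u * 0)) = 1 := by
        simp only [mul_zero, Real.cos_zero]
        exact tm_const hT0 1
      have t2 : tm T (fun u => Real.sin (u * 0)) = 0 := by
        simp only [mul_zero, Real.sin_zero]
        exact tm_const hT0 0
      have t3 : (α (ν i) * (starRingEnd ℂ) (α (ν i))).re = ‖α (ν i)‖ ^ 2 := by
        rw [Complex.mul_conj, Complex.ofReal_re, Complex.normSq_eq_norm_sq]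
      rw [t1, t2, t3, norm_mul, Complex.norm_real, Real.norm_of_nonneg hwi]
      have s2 : -(C * η) ≤ -(A ^ 2 * (4 / l0 ^ 2 + 4 / l0) * η) := by
        have : 0 ≤ (8 * A ^ 2 + 2 * A * K) * η := by positivity
        rw [hC]
        nlinarith
      have s3 : 0 ≤ C * η := by positivity
      have s4 : w i * w i / 2 * (-(C * η)) ≤ w i * w i / 2 *
          ((α (ν i) * α (ν i)).re * tm T (fun u => Real.cos (u * (ν i + ν i))) +
          (α (ν i) * α (ν i)).im * tm T (fun u => Real.sin (u * (ν i + ν i)))) :=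
        mul_le_mul_of_nonneg_left (s2.trans s1) (by positivity)
      have s5 : 0 ≤ w i * w i * (C * η) := by positivity
      nlinarith
    · rw [if_neg hij]
      have s2 := hdiff (ν i) (ν j)
      have s6 : -(C * η) ≤ ((α (ν i) * (starRingEnd ℂ) (α (ν j))).re *
            tm T (fun u => Real.cos (u * (ν i - ν j))) +
          (α (ν i) * (starRingEnd ℂ) (α (ν j))).im *
            tm T (fun u => Real.sin (u * (ν i - ν j)))) +
        ((α (ν i) * α (ν j)).re * tm T (fun u => Real.cos (u * (ν i + ν j))) +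
          (α (ν i) * α (ν j)).im * tm T (fun u => Real.sin (u * (ν i + ν j)))) := by
        rw [hC]
        nlinarith
      have s7 := mul_le_mul_of_nonneg_left s6 (show 0 ≤ w i * w j / 2 by positivity)
      have s5 : 0 ≤ w i * w j * (C * η) := by positivity
      nlinarith
  refine le_trans (le_of_eq ?_) (Finset.sum_le_sum hterm)
  rw [Finset.sum_sub_distrib, Finset.sum_product, Finset.sum_product]
  congr 1
  · rw [Finset.mul_sum]
    refine Finset.sum_congr rfl fun i hi => ?_
    rw [Finset.sum_ite_eq, if_pos hi]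
  · rw [sq, Finset.sum_mul_sum, Finset.mul_sum, Finset.sum_mul]
    refine Finset.sum_congr rfl fun i _ => ?_
    rw [Finset.mul_sum, Finset.sum_mul]

end EM73
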