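import Pool.Agent.LibEM73.N5
import Pool.Agent.LibGWa.U4

/-! Row N6: the second moment of the sum over the closed geodesics in the triangular mean, from below, for every
amplitude. 40 min.
Plan. `Osc G a R L u = tri s A ν u` with `s = ball G (R L) ×ˢ range (KK G (R L))`,
`A (p, k) = amp G a L p k = w (p, k) * α (ν (p, k))`, `ν (p, k) = (k + 1) * len p`,
`w (p, k) = 4 / L * (len p / √(tw p (k + 1))) ≥ 0`, `α t = a (t / L)`, which is Lipschitz with the constant of `a`
(`1 ≤ L`; `a` is Lipschitz: `IsAmp.smooth`, `IsAmp.supp`, `ContDiff.lipschitzWith_of_hasCompactSupport`).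
`l0`: `exists_l0`. `∑ w ≤ exp (C L)`: `amp_total_le` for the constant function `a = 1` (`A = 1`), for which `‖amp‖ = w`;
so `C' * (∑ w)^2 ≤ exp (C'' L)`. `Vr` is `1 / 2 * ∑ ‖amp‖^2` over the same set (`Finset.sum_product`). -/

open MeasureTheory Set Filter Topology FG33
open scoped ContDiff

namespace EM73

open GWin

theorem osc_sq_low {G : Geo} {κ : ℝ} (h : Ok G κ) {a : ℝ → ℂ} (ha : IsAmp a) {R : ℝ}
    (hR0 : 0 ≤ R) : ∃ C : ℝ, 0 < C ∧ ∀ L T : ℝ, 1 ≤ L → 1 ≤ T →
      Vr G a R L - Real.exp (C * L) * T ^ (-(1 / 2) : ℝ) ≤ tm T fun u => Osc G a R L u ^ 2 := by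
  obtain ⟨l0, hl0, hl⟩ := exists_l0 h
  obtain ⟨K, hK⟩ := ContDiff.lipschitzWith_of_hasCompactSupport (𝕂 := ℝ) ha.supp ha.smooth (by simp)
  obtain ⟨x0, hx0⟩ := ha.smooth.continuous.norm.exists_forall_ge_of_hasCompactSupport ha.supp.norm
  obtain ⟨C1, hC1, hlow⟩ := tri_low (K := (K : ℝ)) (A := ‖a x0‖) (l0 := l0) K.2 hl0
  obtain ⟨C2, hC2, hsum⟩ := amp_total_le h (a := fun _ => 1) (A := 1) (R := R)
    (fun s => by simp) hR0
  refine ⟨2 * C2 + C1, by linarith, fun L T hL hT => ?_⟩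
  have hL0 : 0 < L := by linarith
  set s : Finset (G.P × ℕ) := ball G (R * L) ×ˢ Finset.range (KK G (R * L)) with hs
  set wt : G.P × ℕ → ℝ := fun q => 4 / L * (G.len q.1 / √(G.tw q.1 (q.2 + 1))) with hwt
  set ν : G.P × ℕ → ℝ := fun q => ((q.2 : ℝ) + 1) * G.len q.1 with hν
  have hwt0 : ∀ q, 0 ≤ wt q := fun q => by
    have hp := h.pos q.1
    simp only [hwt]
    positivity
  have hampeq : ∀ q : G.P × ℕ, (wt q : ℂ) * (fun t : ℝ => a (t / L)) (ν q) = amp G a L q.1 q.2 := by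
    intro q
    rfl
  have key := hlow (G.P × ℕ) s wt (fun t : ℝ => a (t / L)) ν (fun q _ => hwt0 q)
    (fun x y => by
      have h1 := hK.dist_le_mul (x / L) (y / L)
      rw [dist_eq_norm, Real.dist_eq] at h1
      refine h1.trans ?_
      have h2 : |x / L - y / L| ≤ |x - y| := by
        rw [← sub_div, abs_div, abs_of_pos hL0]
        exact div_le_self (abs_nonneg _) hL
      exact mul_le_mul_of_nonneg_left h2 K.2)
    (fun x => hx0 (x / L))
    (fun q _ => by
      have h1 := hl q.1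
      have h2 : (0 : ℝ) ≤ (q.2 : ℝ) := Nat.cast_nonneg _
      show l0 ≤ ((q.2 : ℝ) + 1) * G.len q.1
      nlinarith) T hT
  simp only [hampeq] at key
  have e1 : ∑ q ∈ s, ‖amp G a L q.1 q.2‖ ^ 2
      = ∑ p ∈ ball G (R * L), ∑ k ∈ Finset.range (KK G (R * L)), ‖amp G a L p k‖ ^ 2 := by
    rw [hs, Finset.sum_product]
  have e3 : ∀ u : ℝ, tri s (fun q => amp G a L q.1 q.2) ν u = Osc G a R L u := by
    intro u
    unfold tri Osc
    rw [hs, Finset.sum_product]
  have e4 : ∑ q ∈ s, wt q ≤ Real.exp (C2 * L) := by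
    refine le_trans (le_of_eq ?_) (hsum L (KK G (R * L)) hL)
    rw [hs, Finset.sum_product]
    refine Finset.sum_congr rfl fun p _ => Finset.sum_congr rfl fun k _ => ?_
    unfold amp
    rw [mul_one, Complex.norm_real, Real.norm_of_nonneg (hwt0 (p, k))]
  rw [e1] at key
  simp only [e3] at key
  refine le_trans ?_ key
  unfold Vr
  have h2 : 0 ≤ ∑ q ∈ s, wt q := Finset.sum_nonneg fun q _ => hwt0 q
  have h3 : (∑ q ∈ s, wt q) ^ 2 ≤ Real.exp (2 * C2 * L) := by
    have h4 : Real.exp (2 * C2 * L) = Real.exp (C2 * L) ^ 2 := by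
      rw [← Real.exp_nat_mul]
      congr 1
      push_cast
      ring
    rw [h4]
    gcongr
  have h5 : C1 ≤ Real.exp (C1 * L) := by
    have h6 := Real.add_one_le_exp (C1 * L)
    nlinarith
  have h7 : C1 * (∑ q ∈ s, wt q) ^ 2 ≤ Real.exp ((2 * C2 + C1) * L) := by
    calc C1 * (∑ q ∈ s, wt q) ^ 2 ≤ Real.exp (C1 * L) * Real.exp (2 * C2 * L) := by
          gcongr
      _ = Real.exp ((2 * C2 + C1) * L) := by
          rw [← Real.exp_add]
          congr 1
          ring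
  have h8 : 0 ≤ T ^ (-(1 / 2) : ℝ) := Real.rpow_nonneg (by linarith) _
  have h9 := mul_le_mul_of_nonneg_right h7 h8
  linarith

end EM73
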