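import Pool.Agent.LibEM73.N1
import Pool.Agent.LibGWa.U6

/-! Row N7: lower bounds for even moments, from the sum over the closed geodesics to the spectrum. 50 min.
Plan. `conv_low`: `t ↦ t ^ r` is convex on `[0, ∞)` (`r ≥ 1`): with `λ = 1 / (1 + s)`,
`|y| ≤ |x| + η = λ (|x| / λ) + (1 - λ) (η / (1 - λ))`, so
`y ^ r ≤ (1 + s)^(r-1) x ^ r + ((1 + s) / s)^(r-1) η ^ r`; state it as you need it (any constants `c(s) → 1`, `C(s)`).
`st_low`: `reduction` gives `|st - Osc| ≤ η(T) := C / L T + C exp (C L T) T^(-1/4)` for `u ∈ [√T, T]`, and `η → 0`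
(as in the proof of `st_moments`, LibGWa/U6). On `[0, √T]` use `st ^ r ≥ 0` and
`|Osc| ≤ exp (C' L T)` (`amp_total_le`; `|Re| ≤ ‖·‖`), so that part of `tm T (Osc ^ r)` is at most
`2 T^(-1/2) exp (r C' L T) → 0`. So `tm T (Osc ^ r) ≤ (1 + s)^(r-1) tm T (st ^ r) + C(s) η^r + o(1)`.
`r = 0` is trivial (`tm_const`). -/

open MeasureTheory Set Filter Topology FG33 Mes
open scoped ContDiff

namespace EM73

open GWin

/-- The elementary inequality with a constant close to one. -/
private theorem N7_ineq {c : ℝ} (hc : 1 < c) (r : ℕ) : ∃ K : ℝ, 0 ≤ K ∧ ∀ x η : ℝ, 0 ≤ x → 0 ≤ η →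
    (x + η) ^ r ≤ c * x ^ r + K * η ^ r := by
  have h1 : Tendsto (fun δ : ℝ => (1 + δ) ^ r) (𝓝[>] 0) (𝓝 1) := by
    have h2 : Tendsto (fun δ : ℝ => (1 + δ) ^ r) (𝓝 0) (𝓝 ((1 + 0) ^ r)) :=
      ((continuous_const.add continuous_id).pow r).tendsto 0
    rw [add_zero, one_pow] at h2
    exact h2.mono_left nhdsWithin_le_nhds
  obtain ⟨δ, hδ1, hδ0⟩ := ((h1.eventually (gt_mem_nhds hc)).and self_mem_nhdsWithin).exists
  have hδ0 : 0 < δ := hδ0
  refine ⟨(1 / δ + 1) ^ r, by positivity, fun x η hx hη => ?_⟩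
  rcases le_total η (δ * x) with h | h
  · have h2 : (x + η) ^ r ≤ ((1 + δ) * x) ^ r :=
      pow_le_pow_left₀ (by positivity) (by linarith) r
    rw [mul_pow] at h2
    have h3 : (1 + δ) ^ r * x ^ r ≤ c * x ^ r := mul_le_mul_of_nonneg_right hδ1.le (by positivity)
    have h4 : 0 ≤ (1 / δ + 1) ^ r * η ^ r := by positivity
    linarith
  · have h2 : x ≤ 1 / δ * η := by
      rw [one_div, ← div_eq_inv_mul, le_div_iff₀ hδ0]
      linarith
    have h3 : (x + η) ^ r ≤ ((1 / δ + 1) * η) ^ r :=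
      pow_le_pow_left₀ (by positivity) (by linarith) r
    rw [mul_pow] at h3
    have h4 : 0 ≤ c * x ^ r := by positivity
    linarith

/-- Powers of `T` beat exponentials of `L T`. -/
private theorem N7_exp {L : ℝ → ℝ} (hL' : Tendsto (fun T => L T / Real.log T) atTop (𝓝 0))
    {k b : ℝ} (hk : 0 ≤ k) (hb : 0 < b) :
    Tendsto (fun T : ℝ => Real.exp (k * L T) * T ^ (-b)) atTop (𝓝 0) := by
  have h1 : Tendsto (fun T : ℝ => T ^ (-(b / 2))) atTop (𝓝 0) :=
    tendsto_rpow_neg_atTop (by positivity)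
  refine squeeze_zero' ?_ ?_ h1
  · filter_upwards [eventually_gt_atTop 0] with T hT
    positivity
  · have hsmall : ∀ᶠ T : ℝ in atTop, L T / Real.log T ≤ b / (2 * (k + 1)) :=
      (hL'.eventually (gt_mem_nhds (by positivity))).mono fun _ h => h.le
    filter_upwards [hsmall, eventually_gt_atTop 1] with T h2 h3
    have hT0 : 0 < T := by linarith
    have hlog : 0 < Real.log T := Real.log_pos h3
    rw [div_le_iff₀ hlog] at h2
    have h4 : Real.exp (k * L T) ≤ T ^ (b / 2) := by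
      rw [Real.rpow_def_of_pos hT0, Real.exp_le_exp]
      calc k * L T ≤ k * (b / (2 * (k + 1)) * Real.log T) := by gcongr
        _ = (k / (k + 1)) * (Real.log T * (b / 2)) := by
            field_simp
        _ ≤ 1 * (Real.log T * (b / 2)) := by
            refine mul_le_mul_of_nonneg_right ?_ (by positivity)
            rw [div_le_one (by positivity)]
            linarith
        _ = _ := one_mul _
    calc Real.exp (k * L T) * T ^ (-b) ≤ T ^ (b / 2) * T ^ (-b) := by gcongr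
      _ = T ^ (-(b / 2)) := by
          rw [← Real.rpow_add hT0]
          congr 1
          ring

private theorem N7_tm_add {T : ℝ} (hT : 0 < T) {f : ℝ → ℝ} (hf : Continuous f) (c K : ℝ) :
    tm T (fun u => c * f u + K) = c * tm T f + K := by
  have h1 : tm T (fun u => c * f u + K) = tm T (fun u => c * f u) + tm T (fun _ => K) := by
    unfold tm
    rw [← mul_add, ← intervalIntegral.integral_add]
    · congr 1
      refine intervalIntegral.integral_congr fun u _ => ?_
      simp only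
      ring
    · exact (Continuous.intervalIntegrable (by fun_prop) _ _)
    · exact (Continuous.intervalIntegrable (by fun_prop) _ _)
  rw [h1, tm_mul, tm_const hT]

/-- splitting the interval -/
private theorem N7_split {T B : ℝ} (hT : 1 ≤ T) {f g : ℝ → ℝ} (hf : Continuous f)
    (hg : Continuous g) (hg0 : ∀ u, 0 ≤ g u) (hB0 : 0 ≤ B)
    (h1 : ∀ u, 0 ≤ u → u ≤ √T → f u ≤ B) (h2 : ∀ u, √T ≤ u → u ≤ T → f u ≤ g u) :
    tm T f ≤ 2 * B * T ^ (-(1 / 2) : ℝ) + tm T g := by
  have hT0 : 0 < T := by linarith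
  have hs0 : 0 ≤ √T := Real.sqrt_nonneg T
  have hs1 : √T ≤ T := by
    rw [Real.sqrt_le_left hT0.le]
    nlinarith
  have hcf : Continuous fun u : ℝ => (T - u) * f u := by fun_prop
  have hcg : Continuous fun u : ℝ => (T - u) * g u := by fun_prop
  have i1 : ∫ u in (0 : ℝ)..√T, (T - u) * f u ≤ √T * (T * B) := by
    have h3 : ∫ u in (0 : ℝ)..√T, (T - u) * f u ≤ ∫ _ in (0 : ℝ)..√T, T * B := by
      refine intervalIntegral.integral_mono_on hs0 (hcf.intervalIntegrable _ _)
        (continuous_const.intervalIntegrable _ _) fun u hu => ?_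
      have h4 := h1 u hu.1 hu.2
      have h5 : 0 ≤ T - u := by linarith [hu.2]
      calc (T - u) * f u ≤ (T - u) * B := mul_le_mul_of_nonneg_left h4 h5
        _ ≤ T * B := mul_le_mul_of_nonneg_right (by linarith [hu.1]) hB0
    refine h3.trans (le_of_eq ?_)
    rw [intervalIntegral.integral_const, smul_eq_mul, sub_zero]
  have i2 : ∫ u in √T..T, (T - u) * f u ≤ ∫ u in √T..T, (T - u) * g u := by
    refine intervalIntegral.integral_mono_on hs1 (hcf.intervalIntegrable _ _)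
      (hcg.intervalIntegrable _ _) fun u hu => ?_
    exact mul_le_mul_of_nonneg_left (h2 u hu.1 hu.2) (by linarith [hu.2])
  have i3 : 0 ≤ ∫ u in (0 : ℝ)..√T, (T - u) * g u := by
    refine intervalIntegral.integral_nonneg hs0 fun u hu => ?_
    exact mul_nonneg (by linarith [hu.2]) (hg0 u)
  have i4 := intervalIntegral.integral_add_adjacent_intervals
    (hcf.intervalIntegrable (μ := volume) 0 (√T)) (hcf.intervalIntegrable (√T) T)
  have i5 := intervalIntegral.integral_add_adjacent_intervals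
    (hcg.intervalIntegrable (μ := volume) 0 (√T)) (hcg.intervalIntegrable (√T) T)
  have i6 : ∫ u in (0 : ℝ)..T, (T - u) * f u ≤
      √T * (T * B) + ∫ u in (0 : ℝ)..T, (T - u) * g u := by
    rw [← i4, ← i5]
    linarith
  unfold tm
  have h7 : 2 / T ^ 2 * (√T * (T * B)) = 2 * B * T ^ (-(1 / 2) : ℝ) := by
    have h8 : T ^ (-(1 / 2) : ℝ) = (√T)⁻¹ := by
      rw [Real.rpow_neg hT0.le, Real.sqrt_eq_rpow]
    have h9 : √T * √T = T := Real.mul_self_sqrt hT0.le
    have h10 : √T ≠ 0 := (Real.sqrt_pos.2 hT0).ne'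
    rw [h8]
    field_simp
    rw [sq, h9]
  calc 2 / T ^ 2 * ∫ u in (0 : ℝ)..T, (T - u) * f u
      ≤ 2 / T ^ 2 * (√T * (T * B) + ∫ u in (0 : ℝ)..T, (T - u) * g u) :=
        mul_le_mul_of_nonneg_left i6 (by positivity)
    _ = _ := by rw [mul_add, h7]

theorem st_low {G : Geo} {κ : ℝ} (h : Ok G κ) {lev : ℕ → ℝ} (hl : Lev lev) (hT : Trace G lev)
    {L : ℝ → ℝ} (hL : Tendsto L atTop atTop)
    (hL' : Tendsto (fun T => L T / Real.log T) atTop (𝓝 0)) {a : ℝ → ℂ} (ha : IsAmp a) {R : ℝ}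
    (hR0 : 0 ≤ R) (hR : ∀ s, R ≤ |s| → a s = 0) {r : ℕ} (hr : Even r) {M : ℝ} (hM : 0 ≤ M)
    (hO : ∀ ε : ℝ, 0 < ε → ∀ᶠ T in atTop, M - ε ≤ tm T fun u => Osc G a R (L T) u ^ r) :
    ∀ ε : ℝ, 0 < ε → ∀ᶠ T in atTop, M - ε ≤ tm T fun u => st lev a (L T) u ^ r := by
  rcases Nat.eq_zero_or_pos r with h0 | hr0
  · subst h0
    simpa using hO
  intro ε hε
  obtain ⟨A, hA⟩ : ∃ A : ℝ, ∀ s, ‖a s‖ ≤ A :=
    ha.smooth.continuous.bounded_above_of_compact_support ha.supp
  obtain ⟨C, hC, hred⟩ := reduction h hl hT ha hR0 (fun s hs => hR s hs.le)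
  obtain ⟨C', hC', hamp⟩ := amp_total_le h hA hR0
  obtain ⟨c, hc⟩ : ∃ c : ℝ, c = 1 + ε / (2 * (M + 1)) := ⟨_, rfl⟩
  have hc1 : 1 < c := by
    rw [hc]
    have : 0 < ε / (2 * (M + 1)) := by positivity
    linarith
  have hcM : c * (M - ε) ≤ M - ε / 2 := by
    have h1 : ε / (2 * (M + 1)) * (M - ε) ≤ ε / 2 := by
      have h2 : ε / (2 * (M + 1)) * (M - ε) ≤ ε / (2 * (M + 1)) * (M + 1) :=
        mul_le_mul_of_nonneg_left (by linarith) (by positivity)
      refine h2.trans (le_of_eq ?_)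
      field_simp
    rw [hc]
    linarith
  obtain ⟨K, hK, hKi⟩ := N7_ineq hc1 r
  -- the errors
  have hη : Tendsto (fun T : ℝ => C / L T + C * (Real.exp (C * L T) * T ^ (-(1 / 4) : ℝ))) atTop
      (𝓝 0) := by
    have h1 : Tendsto (fun T : ℝ => C / L T) atTop (𝓝 0) := tendsto_const_nhds.div_atTop hL
    have h2 := (N7_exp hL' hC.le (show (0 : ℝ) < 1 / 4 by norm_num)).const_mul C
    rw [mul_zero] at h2
    have h3 := h1.add h2
    rw [add_zero] at h3
    exact h3
  have hηr : Tendsto (fun T : ℝ =>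
      K * (C / L T + C * (Real.exp (C * L T) * T ^ (-(1 / 4) : ℝ))) ^ r) atTop (𝓝 0) := by
    have h1 := (hη.pow r).const_mul K
    rw [zero_pow (by omega), mul_zero] at h1
    exact h1
  have hE : Tendsto (fun T : ℝ => 2 * (Real.exp ((r * C') * L T) * T ^ (-(1 / 2) : ℝ))) atTop
      (𝓝 0) := by
    have h1 := (N7_exp hL' (show 0 ≤ (r : ℝ) * C' by positivity)
      (show (0 : ℝ) < 1 / 2 by norm_num)).const_mul 2
    rw [mul_zero] at h1
    exact h1
  have hsum := hηr.add hE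
  rw [add_zero] at hsum
  filter_upwards [hO (ε / 4) (by positivity), hsum.eventually (gt_mem_nhds (show 0 < ε / 4 by
    positivity)), hL.eventually (eventually_ge_atTop 1), eventually_ge_atTop 1] with T h1 h2 h3 h4
  have hT0 : 0 < T := by linarith
  have hL0 : 0 < L T := by linarith
  obtain ⟨η, hηd⟩ : ∃ η : ℝ, η = C / L T + C * (Real.exp (C * L T) * T ^ (-(1 / 4) : ℝ)) :=
    ⟨_, rfl⟩
  rw [← hηd] at h2
  have hη0 : 0 ≤ η := by
    rw [hηd]
    positivity
  have hcS : Continuous fun u => st lev a (L T) u ^ r := (st_cont ha hl hL0).pow r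
  have hcO : Continuous fun u => Osc G a R (L T) u ^ r := (Osc_cont G a R (L T)).pow r
  have hOb : ∀ u, |Osc G a R (L T) u| ≤ Real.exp (C' * L T) := by
    intro u
    refine le_trans ?_ (hamp (L T) (KK G (R * L T)) h3)
    unfold Osc
    refine (Finset.abs_sum_le_sum_abs _ _).trans (Finset.sum_le_sum fun p _ => ?_)
    refine (Finset.abs_sum_le_sum_abs _ _).trans (Finset.sum_le_sum fun k _ => ?_)
    refine (Complex.abs_re_le_norm _).trans ?_
    rw [norm_mul]
    have h5 : ‖Complex.exp (-((u * (((k : ℝ) + 1) * G.len p) : ℝ) : ℂ) * Complex.I)‖ = 1 := by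
      rw [← Complex.ofReal_neg, Complex.norm_exp_ofReal_mul_I]
    rw [h5, mul_one]
  have hev : ∀ x : ℝ, x ^ r = |x| ^ r := fun x => (hr.pow_abs x).symm
  have hpt : ∀ u, √T ≤ u → u ≤ T →
      Osc G a R (L T) u ^ r ≤ c * st lev a (L T) u ^ r + K * η ^ r := by
    intro u hu1 hu2
    have hs1 : 1 ≤ √T := by
      rw [Real.one_le_sqrt]
      exact h4
    have hu : 1 ≤ u := hs1.trans hu1
    have h5 := hred (L T) u h3 hu
    have h6 : u ^ (-(1 / 2) : ℝ) ≤ T ^ (-(1 / 4) : ℝ) := by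
      have h7 : u ^ (-(1 / 2) : ℝ) ≤ (√T) ^ (-(1 / 2) : ℝ) :=
        Real.rpow_le_rpow_of_nonpos (by linarith) hu1 (by norm_num)
      refine h7.trans (le_of_eq ?_)
      rw [Real.sqrt_eq_rpow, ← Real.rpow_mul hT0.le]
      norm_num
    have h7 : |st lev a (L T) u - Osc G a R (L T) u| ≤ η := by
      refine h5.trans ?_
      rw [hηd]
      have h8 : C * Real.exp (C * L T) * u ^ (-(1 / 2) : ℝ) ≤
          C * (Real.exp (C * L T) * T ^ (-(1 / 4) : ℝ)) := by
        rw [mul_assoc]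
        gcongr
      linarith
    have h8 : |Osc G a R (L T) u| ≤ |st lev a (L T) u| + η := by
      have h9 := abs_sub_abs_le_abs_sub (Osc G a R (L T) u) (st lev a (L T) u)
      rw [abs_sub_comm] at h9
      linarith
    calc Osc G a R (L T) u ^ r = |Osc G a R (L T) u| ^ r := hev _
      _ ≤ (|st lev a (L T) u| + η) ^ r := pow_le_pow_left₀ (abs_nonneg _) h8 r
      _ ≤ c * |st lev a (L T) u| ^ r + K * η ^ r := hKi _ _ (abs_nonneg _) hη0
      _ = _ := by rw [← hev]
  have hlow : ∀ u, 0 ≤ u → u ≤ √T → Osc G a R (L T) u ^ r ≤ Real.exp (C' * L T) ^ r := by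
    intro u _ _
    rw [hev]
    exact pow_le_pow_left₀ (abs_nonneg _) (hOb u) r
  have hmain := N7_split h4 hcO (g := fun u => c * st lev a (L T) u ^ r + K * η ^ r)
    (by fun_prop) (fun u => by
      have h5 : 0 ≤ st lev a (L T) u ^ r := hr.pow_nonneg _
      positivity) (by positivity) hlow hpt
  rw [N7_tm_add hT0 hcS] at hmain
  have h5 : Real.exp (C' * L T) ^ r = Real.exp ((r * C') * L T) := by
    rw [← Real.exp_nat_mul]
    congr 1
    ring
  rw [h5] at hmain
  have h6 : M - ε / 2 ≤ c * tm T fun u => st lev a (L T) u ^ r := by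
    have h7 : 2 * Real.exp ((r * C') * L T) * T ^ (-(1 / 2) : ℝ) =
        2 * (Real.exp ((r * C') * L T) * T ^ (-(1 / 2) : ℝ)) := by ring
    rw [h7] at hmain
    linarith
  have h7 : c * (M - ε) ≤ c * tm T fun u => st lev a (L T) u ^ r := hcM.trans h6
  exact le_of_mul_le_mul_left h7 (by linarith)

end EM73
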