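import Pool.Agent.LibEM73.N4
import Pool.Agent.LibEM73.N6
import Pool.Agent.LibEM73.N7

/-! Row N9: every metric has at least the fluctuations of the GOE, in the triangular mean over `[0, T]`. 20 min.
Plan. `R` from the support of `a` (as in the proof of `st_moments`, LibGWa/U6). `every_sq`: `st_low` with `r = 2`,
`M = vg a ≥ 0` (`vg_nonneg`, LibGWa/U8), `osc_sq_low`, `Vr_tendsto` and `exp (C L T) T^(-1/2) → 0`.
`every_even`: `st_low` with `osc_low_pos`; `gaussMom (vg a) (2 k) ≥ 0`. -/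

open MeasureTheory Set Filter Topology FG33 Mes
open scoped ContDiff

namespace EM73

open GWin

theorem N9_support {a : ℝ → ℂ} (ha : IsAmp a) : ∃ R : ℝ, 0 ≤ R ∧ ∀ s, R ≤ |s| → a s = 0 := by
  obtain ⟨R, hR0, hR⟩ := ha.supp.isCompact.isBounded.exists_pos_norm_lt
  refine ⟨R, hR0.le, fun s hs => ?_⟩
  by_contra h0
  have := hR s (subset_tsupport a h0)
  rw [Real.norm_eq_abs] at this
  linarith

theorem N9_vg_nonneg (a : ℝ → ℂ) : 0 ≤ vg a := by
  unfold vg
  have := setIntegral_nonneg (μ := volume) (f := fun s : ℝ => s * ‖a s‖ ^ 2)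
    (s := Ioi (0 : ℝ)) measurableSet_Ioi (fun s hs => by
      have : (0 : ℝ) < s := hs
      positivity)
  linarith

theorem N9_gauss_nonneg {S : ℝ} (hS : 0 ≤ S) (k : ℕ) : 0 ≤ gaussMom S (2 * k) := by
  unfold gaussMom
  split_ifs
  · positivity
  · exact le_refl _

theorem N9_small {L : ℝ → ℝ} (hL' : Tendsto (fun T => L T / Real.log T) atTop (𝓝 0)) {C : ℝ}
    (hC : 0 < C) :
    Tendsto (fun T : ℝ => Real.exp (C * L T) * T ^ (-(1 / 2) : ℝ)) atTop (𝓝 0) := by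
  have h1 : Tendsto (fun T : ℝ => T ^ (-(1 / 4) : ℝ)) atTop (𝓝 0) :=
    tendsto_rpow_neg_atTop (show (0 : ℝ) < 1 / 4 by norm_num)
  refine squeeze_zero' ?_ ?_ h1
  · filter_upwards [eventually_gt_atTop 0] with T hT
    positivity
  · have hsmall : ∀ᶠ T : ℝ in atTop, L T / Real.log T ≤ 1 / (4 * C) :=
      (hL'.eventually (gt_mem_nhds (by positivity))).mono fun _ h => h.le
    filter_upwards [hsmall, eventually_gt_atTop 1] with T h2 h3
    have hT0 : 0 < T := by linarith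
    have hlog : 0 < Real.log T := Real.log_pos h3
    rw [div_le_iff₀ hlog] at h2
    have h4 : Real.exp (C * L T) ≤ T ^ (1 / 4 : ℝ) := by
      rw [Real.rpow_def_of_pos hT0, Real.exp_le_exp]
      calc C * L T ≤ C * (1 / (4 * C) * Real.log T) := by gcongr
        _ = _ := by field_simp
    calc Real.exp (C * L T) * T ^ (-(1 / 2) : ℝ) ≤ T ^ (1 / 4 : ℝ) * T ^ (-(1 / 2) : ℝ) := by
          gcongr
      _ = T ^ (-(1 / 4) : ℝ) := by
          rw [← Real.rpow_add hT0]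
          norm_num

theorem every_sq {G : Geo} {κ : ℝ} (h : Ok G κ) (hSR : SumRule G) {lev : ℕ → ℝ} (hl : Lev lev)
    (hT : Trace G lev) {L : ℝ → ℝ} (hL : Tendsto L atTop atTop)
    (hL' : Tendsto (fun T => L T / Real.log T) atTop (𝓝 0)) {a : ℝ → ℂ} (ha : IsAmp a) :
    ∀ ε : ℝ, 0 < ε → ∀ᶠ T in atTop, vg a - ε ≤ tm T fun u => st lev a (L T) u ^ 2 := by
  obtain ⟨R, hR0, hR⟩ := N9_support ha
  refine st_low h hl hT hL hL' ha hR0 hR (r := 2) even_two (N9_vg_nonneg a) ?_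
  intro ε hε
  obtain ⟨C, hC, hlow⟩ := osc_sq_low h ha hR0
  obtain ⟨A, hA⟩ : ∃ A : ℝ, ∀ s, ‖a s‖ ≤ A := by
    obtain ⟨A, hA⟩ := ha.supp.exists_bound_of_continuous ha.smooth.continuous
    exact ⟨A, hA⟩
  have hV : Tendsto (fun L => Vr G a R L) atTop (𝓝 (vg a)) :=
    Vr_tendsto h hSR (ha.smooth.of_le (by exact_mod_cast le_top)) hR0
      (fun s hs => hR s (hs.trans (le_abs_self s))) hA
  have hV' := hV.comp hL
  have h1 := hV'.sub (N9_small hL' hC)
  rw [sub_zero] at h1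
  filter_upwards [h1.eventually (lt_mem_nhds (show vg a - ε < vg a by linarith)),
    hL.eventually (eventually_ge_atTop 1), eventually_ge_atTop 1] with T h2 h3 h4
  exact (le_of_lt h2).trans (hlow (L T) T h3 h4)

theorem every_even {G : Geo} {κ : ℝ} (h : Ok G κ) (hSR : SumRule G) {lev : ℕ → ℝ} (hl : Lev lev)
    (hT : Trace G lev) {L : ℝ → ℝ} (hL : Tendsto L atTop atTop)
    (hL' : Tendsto (fun T => L T / Real.log T) atTop (𝓝 0)) {a : ℝ → ℂ} (ha : IsAmp a)
    (hpos : ∀ t, 0 ≤ (a t).re ∧ (a t).im = 0) (k : ℕ) :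
    ∀ ε : ℝ, 0 < ε → ∀ᶠ T in atTop,
      gaussMom (vg a) (2 * k) - ε ≤ tm T fun u => st lev a (L T) u ^ (2 * k) := by
  obtain ⟨R, hR0, hR⟩ := N9_support ha
  refine st_low h hl hT hL hL' ha hR0 hR (r := 2 * k) (even_two_mul k)
    (N9_gauss_nonneg (N9_vg_nonneg a) k) ?_
  intro ε hε
  obtain ⟨L₀, hlow⟩ := osc_low_pos h hSR ha hpos hR0 hR (2 * k) hε
  filter_upwards [hL.eventually (eventually_ge_atTop L₀), eventually_gt_atTop 0] with T h1 h2
  exact hlow (L T) T h1 h2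

end EM73
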